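import Pool.Agent.Run7.h751.ZO.Y4

set_option autoImplicit false

/-! # Large values -/

namespace Run7.h751.ZO

open Finset Filter MeasureTheory Topology
open Run7.h751.ZM
open Pool.Agent.N748.MG

open Classical in
theorem large_loo (I : Inputs) {d : ℝ → ℝ} (hd : Ad d) {V ε : ℝ} (hV : 0 < V) (hε : 0 < ε) :
    ∃ η : ℝ, 0 < η ∧ η ≤ 1 ∧ ∀ᶠ T in atTop, (2 * d T) ^ (V ^ 2 + ε) * ∑ s ∈ Zs T, mu s ≤
      (((ZO η T).filter (fun s => (2 * d T) ^ (-V) ≤ mz (d T) s.im)).card : ℝ) := by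
  obtain ⟨h, hh⟩ : ∃ h : ℝ, h = min 1 (ε / (2 * (4 * V + 3))) := ⟨_, rfl⟩
  have h0 : 0 < h := by rw [hh]; positivity
  have h1 : h ≤ 1 := by rw [hh]; exact min_le_left _ _
  have h2 : 4 * V * h + 3 * h ^ 2 ≤ ε / 2 := by
    have h3 : h ≤ ε / (2 * (4 * V + 3)) := by rw [hh]; exact min_le_right _ _
    have h4 : h * (4 * V + 3) ≤ ε / 2 := by
      calc h * (4 * V + 3) ≤ ε / (2 * (4 * V + 3)) * (4 * V + 3) := mul_le_mul_of_nonneg_right h3 (by positivity)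
        _ = ε / 2 := by field_simp
    nlinarith
  obtain ⟨A, hA0, hA⟩ := aC_bdd I.c (V + h)
  obtain ⟨a, ha, hak⟩ := I.c.2 (V + h : ℝ)
  have hakr : (aC ((V + h : ℝ) : ℂ)).re = a := by rw [hak, Complex.ofReal_re]
  have hpi := Real.pi_gt_three
  have hpi2 := Real.pi_lt_d2
  obtain ⟨η, hη, hη1, hev⟩ := trunco I.dp I.mv I.sa so I.l4 I.sn I.cm I.d1 I.d2 I.c c1o c2o V (V + h) (V + 2 * h)
    (a / 100) hV (by linarith) (by linarith) (by positivity)
  refine ⟨η, hη, hη1, ?_⟩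
  have hsm := Ev.small (C := 2 ^ (h ^ 2) * (A + a)) (c := h ^ 2) (e := a / 100) (by positivity) (by positivity)
  have hsm2 := Ev.small (C := 2 ^ (ε / 2)) (c := ε / 2) (e := a / 100) (by positivity) (by positivity)
  filter_upwards [Ad_app (hev.and (hsm.and hsm2)) hd, XX_pos, hd.pos, count I.sa (3 / 100) (by norm_num),
    hd.t0.eventually_le_const (show (0:ℝ) < 1 / 16 by norm_num), eventually_ge_atTop 16] with T hT hX hδ hcnt hδ16 hT16
  obtain ⟨hU, hs, hs2⟩ := hT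
  obtain ⟨-, m2, -⟩ := hU (V + h) (by linarith) le_rfl
  obtain ⟨m3, -, -⟩ := hU V le_rfl (by linarith)
  rw [hakr] at m2
  obtain ⟨-, haA⟩ := hA V hV.le (by linarith)
  have hXX : XX T = T * Real.log T := rfl
  rw [← hXX] at m2 m3 hcnt
  obtain ⟨X, hXd⟩ : ∃ X : ℝ, X = XX T := ⟨_, rfl⟩
  rw [← hXd] at m2 m3 hcnt hX
  obtain ⟨δ, hδd⟩ : ∃ δ : ℝ, δ = d T := ⟨_, rfl⟩
  rw [← hδd] at m2 m3 hs hs2 hδ hδ16 ⊢
  have h2δ : 0 < 2 * δ := by linarith
  have h2δ1 : 2 * δ ≤ 1 := by linarith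
  obtain ⟨c1, hc1⟩ : ∃ c1 : ℝ, c1 = (2 * δ) ^ (-V) := ⟨_, rfl⟩
  obtain ⟨c2, hc2⟩ : ∃ c2 : ℝ, c2 = (2 * δ) ^ (-(V + 2 * h)) := ⟨_, rfl⟩
  rw [← hc1]
  rw [← hc2] at m2 m3
  have hc10 : 0 < c1 := by rw [hc1]; exact Real.rpow_pos_of_pos h2δ _
  have hc20 : 0 < c2 := by rw [hc2]; exact Real.rpow_pos_of_pos h2δ _
  obtain ⟨q, hq⟩ : ∃ q : ℝ, q = (2 * δ) ^ ((V + h) ^ 2) := ⟨_, rfl⟩
  rw [← hq] at m2
  have hq0 : 0 < q := by rw [hq]; exact Real.rpow_pos_of_pos h2δ _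
  -- split the sum over the isolated zeros
  have e1 : ∑ s ∈ (ZO η T).filter (fun s => mz δ s.im ≤ c2), mz δ s.im ^ (2 * (V + h)) ≤
      c1 ^ (2 * h) * ∑ s ∈ (Zs T).filter (fun s => mz δ s.im ≤ c2), mu s * mz δ s.im ^ (2 * V) +
      c2 ^ (2 * (V + h)) * (((ZO η T).filter (fun s => c1 ≤ mz δ s.im)).card : ℝ) := by
    rw [← sum_filter_add_sum_filter_not ((ZO η T).filter (fun s => mz δ s.im ≤ c2))
      (fun s => mz δ s.im < c1)]
    refine add_le_add ?_ ?_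
    · rw [mul_sum]
      refine (sum_le_sum (g := fun s => c1 ^ (2 * h) * (mu s * mz δ s.im ^ (2 * V))) fun s hs => ?_).trans
        (sum_le_sum_of_subset_of_nonneg (fun s hs => ?_) fun s _ _ => mul_nonneg (by positivity)
          (mul_nonneg (mu_nn s) (mzk_nn _ _ _)))
      · rw [mem_filter, mem_filter] at hs
        have hsZ : s ∈ Zs T := by
          exact ZO_sub _ _ hs.1.1
        have hm1 := mu_one (by linarith) hsZ
        rcases (norm_nonneg (riemannZeta (pw δ s.im))).eq_or_lt with hz | hz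
        · have hz' : mz δ s.im = 0 := hz.symm
          rw [hz', Real.zero_rpow (by positivity)]
          have : 0 ≤ mu s * (0:ℝ) ^ (2 * V) := mul_nonneg (mu_nn s) (Real.rpow_nonneg le_rfl _)
          positivity
        · have hz' : 0 < mz δ s.im := hz
          have e2 : mz δ s.im ^ (2 * (V + h)) = mz δ s.im ^ (2 * h) * mz δ s.im ^ (2 * V) := by
            rw [← Real.rpow_add hz']
            congr 1
            ring
          have e3 : mz δ s.im ^ (2 * h) ≤ c1 ^ (2 * h) := Real.rpow_le_rpow hz'.le hs.2.le (by linarith)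
          have e4 : 0 ≤ mz δ s.im ^ (2 * V) := mzk_nn _ _ _
          rw [e2]
          calc mz δ s.im ^ (2 * h) * mz δ s.im ^ (2 * V) ≤ c1 ^ (2 * h) * mz δ s.im ^ (2 * V) :=
                mul_le_mul_of_nonneg_right e3 e4
            _ ≤ c1 ^ (2 * h) * (mu s * mz δ s.im ^ (2 * V)) :=
                mul_le_mul_of_nonneg_left (le_mul_of_one_le_left e4 hm1) (by positivity)
      · rw [mem_filter, mem_filter] at hs
        rw [mem_filter]
        refine ⟨?_, hs.1.2⟩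
        exact ZO_sub _ _ hs.1.1
    · have e5 : ∑ s ∈ ((ZO η T).filter (fun s => mz δ s.im ≤ c2)).filter (fun s => ¬ mz δ s.im < c1),
          mz δ s.im ^ (2 * (V + h)) ≤
          ∑ s ∈ ((ZO η T).filter (fun s => mz δ s.im ≤ c2)).filter (fun s => ¬ mz δ s.im < c1),
          c2 ^ (2 * (V + h)) := sum_le_sum fun s hs =>
            Real.rpow_le_rpow (norm_nonneg _) (mem_filter.1 (mem_filter.1 hs).1).2 (by positivity)
      refine e5.trans ?_
      rw [sum_const, nsmul_eq_mul, mul_comm]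
      refine mul_le_mul_of_nonneg_left ?_ (by positivity)
      have : ((ZO η T).filter (fun s => mz δ s.im ≤ c2)).filter (fun s => ¬ mz δ s.im < c1) ⊆
          (ZO η T).filter (fun s => c1 ≤ mz δ s.im) := by
        intro s hs
        rw [mem_filter, mem_filter] at hs
        rw [mem_filter]
        exact ⟨hs.1.1, not_lt.1 hs.2⟩
      exact_mod_cast card_le_card this
  obtain ⟨S, hS⟩ : ∃ S : ℝ, S = ∑ s ∈ (Zs T).filter (fun s => mz δ s.im ≤ c2), mu s * mz δ s.im ^ (2 * V) := ⟨_, rfl⟩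
  obtain ⟨Cd, hCd⟩ : ∃ C : ℝ, C = (((ZO η T).filter (fun s => c1 ≤ mz δ s.im)).card : ℝ) := ⟨_, rfl⟩
  rw [← hS] at e1 m3
  rw [← hCd] at e1 ⊢
  have hCd0 : 0 ≤ Cd := by rw [hCd]; exact Nat.cast_nonneg _
  -- the part of small values
  have e6 : (2 * δ) ^ (V ^ 2) * S ≤ (A + a) * X := by
    have h3 := (abs_le.1 m3).2
    have h4 : X / (2 * Real.pi) ≤ X := by
      apply div_le_self hX.le
      linarith
    have h5 : (aC (V : ℝ)).re * (X / (2 * Real.pi)) ≤ A * X := mul_le_mul haA h4 (by positivity) hA0.le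
    have h6 : a / 100 * X ≤ a * X := mul_le_mul_of_nonneg_right (by linarith) hX.le
    linarith
  have hS0 : 0 ≤ S := by rw [hS]; exact sum_nonneg fun s _ => mul_nonneg (mu_nn s) (mzk_nn _ _ _)
  have e7 : q * (c1 ^ (2 * h) * S) ≤ a / 100 * X := by
    have h3 : q * c1 ^ (2 * h) = (2 * δ) ^ (h ^ 2) * (2 * δ) ^ (V ^ 2) := by
      rw [hq, hc1, ← Real.rpow_mul h2δ.le, ← Real.rpow_add h2δ, ← Real.rpow_add h2δ]
      congr 1
      ring
    calc q * (c1 ^ (2 * h) * S) = (2 * δ) ^ (h ^ 2) * ((2 * δ) ^ (V ^ 2) * S) := by rw [← mul_assoc, h3]; ring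
      _ ≤ (2 * δ) ^ (h ^ 2) * ((A + a) * X) := mul_le_mul_of_nonneg_left e6 (by positivity)
      _ = (2 ^ (h ^ 2) * (A + a) * δ ^ (h ^ 2)) * X := by rw [Real.mul_rpow (by norm_num) hδ.le]; ring
      _ ≤ _ := mul_le_mul_of_nonneg_right hs hX.le
  have e8 : q * c2 ^ (2 * (V + h)) = (2 * δ) ^ (-(V ^ 2 + (4 * V * h + 3 * h ^ 2))) := by
    rw [hq, hc2, ← Real.rpow_mul h2δ.le, ← Real.rpow_add h2δ]
    congr 1
    ring
  have c1' := c1o
  have c2' := c2o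
  have e9 : a / 25 * X ≤ (2 * δ) ^ (-(V ^ 2 + (4 * V * h + 3 * h ^ 2))) * Cd := by
    have h3 : q * ∑ s ∈ (ZO η T).filter (fun s => mz δ s.im ≤ c2), mz δ s.im ^ (2 * (V + h)) ≤
        a / 100 * X + (2 * δ) ^ (-(V ^ 2 + (4 * V * h + 3 * h ^ 2))) * Cd := by
      have h4 := mul_le_mul_of_nonneg_left e1 hq0.le
      rw [mul_add q, ← mul_assoc q (c2 ^ (2 * (V + h))) Cd, e8] at h4
      linarith
    have h5 : X / 6.3 ≤ X / (2 * Real.pi) := by
      apply div_le_div_of_nonneg_left hX.le (by positivity)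
      norm_num at hpi2 ⊢
      linarith
    have h6 : X / 6.3 = X * (10 / 63) := by ring
    have h7 : 1 / 2 * a * (X * (10 / 63)) ≤ (2 - cO) * a * (X / (2 * Real.pi)) := by
      refine mul_le_mul ?_ (by linarith) (by positivity) (by nlinarith)
      exact mul_le_mul_of_nonneg_right (by linarith) ha.le
    have h8 : 0 < a * X := by positivity
    have h9 : 1 / 2 * a * (X * (10 / 63)) = (5 / 63) * (a * X) := by ring
    have h10 : a / 100 * X = (a * X) / 100 := by ring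
    have h11 : a / 25 * X = (a * X) / 25 := by ring
    rw [h10] at m2 h3
    rw [h11]
    linarith
  -- conclusion
  obtain ⟨NN, hNN⟩ : ∃ N : ℝ, N = ∑ s ∈ Zs T, mu s := ⟨_, rfl⟩
  rw [← hNN] at hcnt ⊢
  have hNX : NN ≤ X := by
    have h3 := (abs_le.1 hcnt).2
    have h4 : X / (2 * Real.pi) ≤ X / 6 := by
      apply div_le_div_of_nonneg_left hX.le (by norm_num)
      linarith
    linarith
  obtain ⟨w, hw⟩ : ∃ w : ℝ, w = V ^ 2 + (4 * V * h + 3 * h ^ 2) := ⟨_, rfl⟩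
  rw [← hw] at e9
  have e10 : (2 * δ) ^ w * (2 * δ) ^ (-w) = 1 := by
    rw [← Real.rpow_add h2δ]
    simp
  have e11 : (2 * δ) ^ w * (a / 25 * X) ≤ Cd := by
    calc (2 * δ) ^ w * (a / 25 * X) ≤ (2 * δ) ^ w * ((2 * δ) ^ (-w) * Cd) := mul_le_mul_of_nonneg_left e9 (by positivity)
      _ = ((2 * δ) ^ w * (2 * δ) ^ (-w)) * Cd := by ring
      _ = Cd := by rw [e10, one_mul]
  have e12 : (2 * δ) ^ (V ^ 2 + ε) ≤ (2 * δ) ^ w * (a / 25) := by
    have h3 : (2 * δ) ^ (V ^ 2 + ε) ≤ (2 * δ) ^ (w + ε / 2) :=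
      Real.rpow_le_rpow_of_exponent_ge h2δ h2δ1 (by rw [hw]; linarith)
    rw [Real.rpow_add h2δ w (ε / 2)] at h3
    refine h3.trans (mul_le_mul_of_nonneg_left ?_ (Real.rpow_nonneg h2δ.le _))
    rw [Real.mul_rpow (show (0:ℝ) ≤ 2 by norm_num) hδ.le]
    have h4 : a / 100 ≤ a / 25 := by linarith
    exact hs2.trans h4
  calc (2 * δ) ^ (V ^ 2 + ε) * NN ≤ (2 * δ) ^ (V ^ 2 + ε) * X := mul_le_mul_of_nonneg_left hNX (by positivity)
    _ ≤ ((2 * δ) ^ w * (a / 25)) * X := mul_le_mul_of_nonneg_right e12 hX.le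
    _ = (2 * δ) ^ w * (a / 25 * X) := by ring
    _ ≤ Cd := e11

end Run7.h751.ZO
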