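import Pool.Agent.Run7.h751.ZM.Z15

set_option autoImplicit false

/-! # Dirichlet polynomials at the simple zeros whose ordinates are isolated -/

namespace Run7.h751.ZO

open Finset Filter MeasureTheory Topology Complex
open Run7.h751.ZM
open Pool.Agent.Q97.UM (dp N2 S_DPM S_SAMP S_SAMPI ZI ZD)
open Pool.Agent.Q61.UM (bd dp_var N2_bd N2_nonneg)

/-- the constant with `2 - cO = (5 - 3 c) / 2` -/
noncomputable def cO : ℝ := (3 * H370.cMTinv - 1) / 2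

open Classical in
/-- the simple zeros on the line whose ordinates are isolated -/
noncomputable def ZO (τ T : ℝ) : Finset ℂ :=
  (ZI τ T).filter (fun s => ∀ s' ∈ Zs T, s' ≠ s → τ / Real.log T ≤ |s.im - s'.im|)

/-- shifted sums -/
lemma shiftsum {E T : ℝ} {N : ℕ} (hD : S_DPM)
    (h : ∀ b : ℕ → ℂ, |(∑ s ∈ Zs T, mu s * ‖dp N b s.im‖ ^ 2) - Real.log T / (2 * Real.pi) * (T * N2 N b)| ≤
      E * Real.log T * (T * N2 N b)) (b : ℕ → ℂ) (x : ℝ) :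
    ∑ s ∈ Zs T, mu s * ‖dp N b (s.im + x)‖ ^ 2 ≤ (1 / (2 * Real.pi) + E) * (Real.log T * (T * N2 N b)) := by
  have h1 := h (fun n => b n * (n : ℂ) ^ (((-x : ℝ) : ℂ) * I))
  have e1 : ∀ t : ℝ, dp N (fun n => b n * (n : ℂ) ^ (((-x : ℝ) : ℂ) * I)) t = dp N b (t + x) := by
    intro t
    rw [← (hD.2.1 N b t (-x)).1, sub_neg_eq_add]
  rw [(hD.2.1 N b 0 (-x)).2] at h1
  simp only [e1] at h1
  have h2 := (abs_le.1 h1).2
  have e2 : (1 / (2 * Real.pi) + E) * (Real.log T * (T * N2 N b)) =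
      Real.log T / (2 * Real.pi) * (T * N2 N b) + E * Real.log T * (T * N2 N b) := by ring
  rw [e2]
  linarith

/-- comparison of two close points -/
lemma close {N : ℕ} (hD : S_DPM) (b : ℕ → ℂ) {lam r x y : ℝ} (hl : 0 < lam) (hr : 0 ≤ r) (hxy : |y - x| ≤ r) :
    ‖dp N b y‖ ^ 2 ≤ ‖dp N b x‖ ^ 2 +
      ∫ u in (-r)..r, (lam * ‖dp N b (y + u)‖ ^ 2 + lam⁻¹ * ‖dp N (bd b) (y + u)‖ ^ 2) := by
  have h1 := dp_var hD N b hl x y
  have hc : ∀ c : ℕ → ℂ, Continuous (dp N c) := fun c => (hD.2.2 N c 0).2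
  have hk : Continuous fun t => lam * ‖dp N b t‖ ^ 2 + lam⁻¹ * ‖dp N (bd b) t‖ ^ 2 := by
    have a1 := hc b
    have a2 := hc (bd b)
    fun_prop
  have e1 : ∫ u in (-r)..r, (lam * ‖dp N b (y + u)‖ ^ 2 + lam⁻¹ * ‖dp N (bd b) (y + u)‖ ^ 2) =
      ∫ t in (y - r)..(y + r), (lam * ‖dp N b t‖ ^ 2 + lam⁻¹ * ‖dp N (bd b) t‖ ^ 2) := by
    have := intervalIntegral.integral_comp_add_left (a := -r) (b := r)
      (fun t => lam * ‖dp N b t‖ ^ 2 + lam⁻¹ * ‖dp N (bd b) t‖ ^ 2) y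
    rw [this, ← sub_eq_add_neg]
  have h2 : |∫ t in x..y, (lam * ‖dp N b t‖ ^ 2 + lam⁻¹ * ‖dp N (bd b) t‖ ^ 2)| ≤
      |∫ t in (y - r)..(y + r), (lam * ‖dp N b t‖ ^ 2 + lam⁻¹ * ‖dp N (bd b) t‖ ^ 2)| := by
    refine intervalIntegral.abs_integral_mono_interval ?_ ?_ (hk.intervalIntegrable _ _)
    · rw [Set.uIoc_of_le (show y - r ≤ y + r by linarith)]
      intro t ht
      rw [Set.mem_uIoc] at ht
      have h3 := abs_le.1 hxy
      rcases ht with ht | ht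
      · exact ⟨by linarith [ht.1], by linarith [ht.2]⟩
      · exact ⟨by linarith [ht.1], by linarith [ht.2]⟩
    · exact Eventually.of_forall fun t => by positivity
  rw [e1]
  have h3 : |∫ t in (y - r)..(y + r), (lam * ‖dp N b t‖ ^ 2 + lam⁻¹ * ‖dp N (bd b) t‖ ^ 2)| =
      ∫ t in (y - r)..(y + r), (lam * ‖dp N b t‖ ^ 2 + lam⁻¹ * ‖dp N (bd b) t‖ ^ 2) :=
    abs_of_nonneg (intervalIntegral.integral_nonneg (by linarith) fun t _ => by positivity)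
  rw [h3] at h2
  have h4 := (abs_le.1 (h1.trans h2)).2
  linarith

/-- the sum over the spoiled zeros -/
lemma spoil {E T : ℝ} {N : ℕ} (hD : S_DPM) (hE : 0 ≤ E)
    (h : ∀ b : ℕ → ℂ, |(∑ s ∈ Zs T, mu s * ‖dp N b s.im‖ ^ 2) - Real.log T / (2 * Real.pi) * (T * N2 N b)| ≤
      E * Real.log T * (T * N2 N b)) (b : ℕ → ℂ) (hT : 1 ≤ T) (hL : 0 < Real.log T) (hN : Real.log N ≤ Real.log T)
    (hN0 : 0 ≤ Real.log N)
    {r : ℝ} (hr : 0 ≤ r) (B R : Finset ℂ) (hB : B ⊆ Zs T) (hR : R ⊆ Zs T) (g : ℂ → ℂ) (hg : ∀ s ∈ B, g s ∈ R)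
    (hgi : ∀ s ∈ B, ∀ s' ∈ B, g s = g s' → s = s') (hgr : ∀ s ∈ B, |s.im - (g s).im| ≤ r) :
    ∑ s ∈ B, ‖dp N b s.im‖ ^ 2 ≤ ∑ s ∈ R, mu s * ‖dp N b s.im‖ ^ 2 +
      4 * (r * Real.log T) * ((1 / (2 * Real.pi) + E) * (Real.log T * (T * N2 N b))) := by
  classical
  obtain ⟨L, hLd⟩ : ∃ L : ℝ, L = Real.log T := ⟨_, rfl⟩
  have hL0 : 0 < L := by rw [hLd]; exact hL
  obtain ⟨k, hkd⟩ : ∃ k : ℝ → ℝ, k = fun t => L * ‖dp N b t‖ ^ 2 + L⁻¹ * ‖dp N (bd b) t‖ ^ 2 := ⟨_, rfl⟩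
  have hc : ∀ c : ℕ → ℂ, Continuous (dp N c) := fun c => (hD.2.2 N c 0).2
  have hk : Continuous k := by
    rw [hkd]
    have a1 := hc b
    have a2 := hc (bd b)
    fun_prop
  have hk0 : ∀ t, 0 ≤ k t := by
    intro t
    rw [hkd]
    positivity
  have h1 : ∑ s ∈ B, ‖dp N b s.im‖ ^ 2 ≤ ∑ s ∈ B, (‖dp N b (g s).im‖ ^ 2 + ∫ u in (-r)..r, k (s.im + u)) := by
    refine sum_le_sum fun s hs => ?_
    rw [hkd]
    exact close hD b hL0 hr (hgr s hs)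
  rw [sum_add_distrib] at h1
  have h2 : ∑ s ∈ B, ‖dp N b (g s).im‖ ^ 2 ≤ ∑ s ∈ R, mu s * ‖dp N b s.im‖ ^ 2 := by
    have e1 : ∑ s ∈ B, ‖dp N b (g s).im‖ ^ 2 = ∑ s ∈ B.image g, ‖dp N b s.im‖ ^ 2 :=
      (sum_image (f := fun s : ℂ => ‖dp N b s.im‖ ^ 2) fun s hs s' hs' he => hgi s hs s' hs' he).symm
    rw [e1]
    have hsub : B.image g ⊆ R := by
      intro s hs
      obtain ⟨s', hs', rfl⟩ := mem_image.1 hs
      exact hg s' hs'
    refine (sum_le_sum_of_subset_of_nonneg hsub fun s _ _ => by positivity).trans (sum_le_sum fun s hs => ?_)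
    exact le_mul_of_one_le_left (by positivity) (mu_one hT (hR hs))
  have h3 : ∑ s ∈ B, ∫ u in (-r)..r, k (s.im + u) ≤ ∑ s ∈ Zs T, mu s * ∫ u in (-r)..r, k (s.im + u) := by
    have h0 : ∀ s : ℂ, 0 ≤ ∫ u in (-r)..r, k (s.im + u) := fun s =>
      intervalIntegral.integral_nonneg (by linarith) fun u _ => hk0 _
    refine (sum_le_sum fun s hs => ?_).trans (sum_le_sum_of_subset_of_nonneg hB fun s _ _ => mul_nonneg (mu_nn s) (h0 s))
    exact le_mul_of_one_le_left (h0 s) (mu_one hT (hB hs))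
  have h4 : ∑ s ∈ Zs T, mu s * ∫ u in (-r)..r, k (s.im + u) = ∫ u in (-r)..r, ∑ s ∈ Zs T, mu s * k (s.im + u) := by
    rw [intervalIntegral.integral_finsetSum]
    · exact sum_congr rfl fun s _ => (intervalIntegral.integral_const_mul _ _).symm
    · intro s _
      apply Continuous.intervalIntegrable
      fun_prop
  obtain ⟨W, hW⟩ : ∃ W : ℝ, W = (1 / (2 * Real.pi) + E) * (L * (T * N2 N b)) := ⟨_, rfl⟩
  have hpi := Real.pi_pos
  have hNb := N2_nonneg N b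
  have hc0 : 0 ≤ 1 / (2 * Real.pi) + E := by positivity
  have h5 : ∀ u : ℝ, ∑ s ∈ Zs T, mu s * k (s.im + u) ≤ 2 * L * W := by
    intro u
    have e1 : ∑ s ∈ Zs T, mu s * k (s.im + u) = L * ∑ s ∈ Zs T, mu s * ‖dp N b (s.im + u)‖ ^ 2 +
        L⁻¹ * ∑ s ∈ Zs T, mu s * ‖dp N (bd b) (s.im + u)‖ ^ 2 := by
      rw [mul_sum, mul_sum, ← sum_add_distrib]
      refine sum_congr rfl fun s _ => ?_
      rw [hkd]
      ring
    have a1 := shiftsum hD h b u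
    have a2 := shiftsum hD h (bd b) u
    rw [← hLd] at a1 a2
    have a3 : N2 N (bd b) ≤ L ^ 2 * N2 N b := by
      refine (N2_bd N b).trans (mul_le_mul_of_nonneg_right ?_ hNb)
      rw [hLd]
      exact pow_le_pow_left₀ hN0 hN 2
    have a4 : (1 / (2 * Real.pi) + E) * (L * (T * N2 N (bd b))) ≤ L ^ 2 * W := by
      rw [hW]
      have a5 : L * (T * N2 N (bd b)) ≤ L * (T * (L ^ 2 * N2 N b)) :=
        mul_le_mul_of_nonneg_left (mul_le_mul_of_nonneg_left a3 (by linarith)) hL0.le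
      calc (1 / (2 * Real.pi) + E) * (L * (T * N2 N (bd b))) ≤
          (1 / (2 * Real.pi) + E) * (L * (T * (L ^ 2 * N2 N b))) := mul_le_mul_of_nonneg_left a5 hc0
        _ = _ := by ring
    rw [← hW] at a1
    rw [e1]
    have a6 : L * ∑ s ∈ Zs T, mu s * ‖dp N b (s.im + u)‖ ^ 2 ≤ L * W := mul_le_mul_of_nonneg_left a1 hL0.le
    have a7 : L⁻¹ * ∑ s ∈ Zs T, mu s * ‖dp N (bd b) (s.im + u)‖ ^ 2 ≤ L⁻¹ * (L ^ 2 * W) :=
      mul_le_mul_of_nonneg_left (a2.trans a4) (by positivity)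
    have a8 : L⁻¹ * (L ^ 2 * W) = L * W := by field_simp
    rw [a8] at a7
    linarith
  have h6 : ∫ u in (-r)..r, ∑ s ∈ Zs T, mu s * k (s.im + u) ≤ ∫ _ in (-r)..r, 2 * L * W := by
    refine intervalIntegral.integral_mono_on (by linarith) ?_ ?_ fun u _ => h5 u
    · apply Continuous.intervalIntegrable
      fun_prop
    · exact intervalIntegrable_const
  rw [intervalIntegral.integral_const, smul_eq_mul] at h6
  rw [← hLd, ← hW]
  have h7 : (r - -r) * (2 * L * W) = 4 * (r * L) * W := by ring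
  rw [h7] at h6
  linarith

end Run7.h751.ZO
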