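import Pool.Agent.Run7.h751.ZO.Y1

set_option autoImplicit false

/-! # The share of the simple zeros with isolated ordinates, for Dirichlet polynomial weights -/

namespace Run7.h751.ZO

open Finset Filter MeasureTheory Topology Complex
open Run7.h751.ZM
open Pool.Agent.Q97.UM (dp N2 S_DPM S_SAMP S_SAMPI ZI ZD)
open Pool.Agent.Q61.UM (bd dp_var N2_bd N2_nonneg)

/-- the statement for Dirichlet polynomials -/
def S_SAMPO : Prop := ∀ ε : ℝ, 0 < ε → ∃ d θ : ℝ, 0 < d ∧ d ≤ 1 ∧ 0 < θ ∧ θ ≤ 1 / 40 ∧ ∀ᶠ T : ℝ in atTop, ∀ N : ℕ,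
  (N : ℝ) ≤ T ^ θ → ∀ b : ℕ → ℂ, (2 - cO - ε) * (Real.log T / (2 * Real.pi)) * (T * N2 N b) ≤
    ∑ s ∈ ZO d T, ‖dp N b s.im‖ ^ 2

lemma ZI_sub (d T : ℝ) : ZI d T ⊆ Zs T := by
  unfold ZI Zs
  exact filter_subset _ _

lemma ZI_re {d T : ℝ} {s : ℂ} (hs : s ∈ ZI d T) : s.re = 1 / 2 := by
  unfold ZI at hs
  exact (mem_filter.1 hs).2.1

lemma ZI_sep {d T : ℝ} {s s' : ℂ} (hs : s ∈ ZI d T) (hs' : s' ∈ ZD T) (hne : s' ≠ s) : d / Real.log T ≤ ‖s - s'‖ := by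
  unfold ZI at hs
  exact (mem_filter.1 hs).2.2.2 s' hs' hne

lemma ZI_anti {d d' T : ℝ} (hT : 1 ≤ T) (h : d' ≤ d) : ZI d T ⊆ ZI d' T := by
  intro s hs
  unfold ZI at hs ⊢
  rw [mem_filter] at hs ⊢
  refine ⟨hs.1, hs.2.1, hs.2.2.1, fun s' h1 h2 => le_trans ?_ (hs.2.2.2 s' h1 h2)⟩
  exact div_le_div_of_nonneg_right h (Real.log_nonneg hT)

lemma Zs_ZD {T : ℝ} (hT : 16 ≤ T) : Zs T ⊆ ZD T := by
  intro s hs
  have h := (mem_Zs (by linarith)).1 hs
  unfold ZD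
  rw [H370.mem_Zf H370.good_zeta (by linarith : (1 : ℝ) ≤ T / 16)]
  obtain ⟨h1, h2, h3, h4, h5⟩ := h
  exact ⟨h1, h2, by linarith, by linarith, h5⟩

/-- two points of the line -/
lemma line_norm {s s' : ℂ} (h : s.re = 1 / 2) (h' : s'.re = 1 / 2) : ‖s - s'‖ = |s.im - s'.im| := by
  have e : s - s' = ((s.im - s'.im : ℝ) : ℂ) * I := by
    apply Complex.ext
    · simp [h, h']
    · simp
  rw [e, norm_mul, Complex.norm_I, mul_one, Complex.norm_real, Real.norm_eq_abs]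

open Classical in
/-- a zero which is not isolated has a zero to the right of the line near its ordinate -/
lemma partner {η τ T : ℝ} (hT : 16 ≤ T) (hτ : τ ≤ η / 2) (hη : 0 < η) {s : ℂ} (hs : s ∈ ZI η T) (hn : s ∉ ZO τ T) :
    ∃ w ∈ (Zs T).filter (fun s => ¬ s.re ≤ 1 / 2), |s.im - w.im| ≤ τ / Real.log T := by
  have hL : 0 < Real.log T := Real.log_pos (by linarith)
  have h1 : ¬ ∀ s' ∈ Zs T, s' ≠ s → τ / Real.log T ≤ |s.im - s'.im| := by
    intro h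
    apply hn
    unfold ZO
    rw [mem_filter]
    exact ⟨ZI_anti (by linarith) (by linarith) hs, h⟩
  push Not at h1
  obtain ⟨s', h2, h3, h4⟩ := h1
  have h5 : s'.re ≠ 1 / 2 := by
    intro h
    have h6 := ZI_sep hs (Zs_ZD hT h2) h3
    rw [line_norm (ZI_re hs) h] at h6
    have h7 : τ / Real.log T ≤ η / Real.log T := div_le_div_of_nonneg_right (by linarith) hL.le
    linarith
  rcases lt_or_gt_of_ne h5 with h6 | h6
  · refine ⟨1 - (starRingEnd ℂ) s', ?_, ?_⟩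
    · rw [mem_filter, mem_Zs (by linarith)]
      refine ⟨H370.zset_refl H370.good_zeta (by linarith) ((mem_Zs (by linarith)).1 h2), ?_⟩
      rw [H370.Loc.reflect_re]
      linarith
    · rw [H370.Loc.reflect_im]
      exact h4.le
  · exact ⟨s', mem_filter.2 ⟨h2, by linarith⟩, h4.le⟩

open Classical in
theorem t_SAMPO (hD : S_DPM) (hS : S_SAMP) (hI : S_SAMPI) : S_SAMPO := by
  intro ε hε
  obtain ⟨E, hE⟩ : ∃ E : ℝ, E = min 1 (ε / 40) := ⟨_, rfl⟩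
  have hE0 : 0 < E := by rw [hE]; positivity
  have hE1 : E ≤ 1 := by rw [hE]; exact min_le_left _ _
  have hE2 : E ≤ ε / 40 := by rw [hE]; exact min_le_right _ _
  obtain ⟨η, θ1, hη, hη1, hθ1, hθ1', h1⟩ := hI E hE0
  obtain ⟨θ2, hθ2, hθ2', h2⟩ := hS E hE0
  obtain ⟨τ, hτ⟩ : ∃ τ : ℝ, τ = min (η / 4) (ε / 400) := ⟨_, rfl⟩
  have hτ0 : 0 < τ := by rw [hτ]; positivity
  have hτ1' : τ ≤ η / 4 := by rw [hτ]; exact min_le_left _ _
  have hτ1 : τ ≤ η / 2 := by linarith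
  have hτ2 : τ ≤ ε / 400 := by rw [hτ]; exact min_le_right _ _
  refine ⟨τ, min θ1 θ2, hτ0, by linarith, lt_min hθ1 hθ2, (min_le_left _ _).trans hθ1', ?_⟩
  filter_upwards [h1, h2, eventually_ge_atTop 16] with T a1 a2 hT N hN b
  have hT1 : 1 ≤ T := by linarith
  have hL : 0 < Real.log T := Real.log_pos (by linarith)
  have hN1 : (N : ℝ) ≤ T ^ θ1 := hN.trans (Real.rpow_le_rpow_of_exponent_le hT1 (min_le_left _ _))
  have hN2 : (N : ℝ) ≤ T ^ θ2 := hN.trans (Real.rpow_le_rpow_of_exponent_le hT1 (min_le_right _ _))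
  have b1 := a1 N hN1 b
  obtain ⟨-, b2, b3⟩ := a2 N hN2 b
  have b4 : ∀ b : ℕ → ℂ, |(∑ s ∈ Zs T, mu s * ‖dp N b s.im‖ ^ 2) - Real.log T / (2 * Real.pi) * (T * N2 N b)| ≤
      E * Real.log T * (T * N2 N b) := fun b => (a2 N hN2 b).2.2
  have b3' := b4 b
  have hlN0 : 0 ≤ Real.log N := Real.log_natCast_nonneg N
  have hlN : Real.log N ≤ Real.log T := by
    rcases Nat.eq_zero_or_pos N with h | h
    · rw [h, Nat.cast_zero, Real.log_zero]
      exact hL.le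
    · have h3 : (0:ℝ) < N := by exact_mod_cast h
      refine Real.log_le_log h3 (hN2.trans ?_)
      calc T ^ θ2 ≤ T ^ (1:ℝ) := Real.rpow_le_rpow_of_exponent_le hT1 (by linarith)
        _ = T := Real.rpow_one T
  -- the spoiled zeros
  obtain ⟨B, hB⟩ : ∃ B : Finset ℂ, B = (ZI η T).filter (fun s => s ∉ ZO τ T) := ⟨_, rfl⟩
  obtain ⟨R, hR⟩ : ∃ R : Finset ℂ, R = (Zs T).filter (fun s => ¬ s.re ≤ 1 / 2) := ⟨_, rfl⟩
  have hpart : ∀ s : ℂ, ∃ w : ℂ, s ∈ B → w ∈ R ∧ |s.im - w.im| ≤ τ / Real.log T := by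
    intro s
    by_cases hs : s ∈ B
    · rw [hB, mem_filter] at hs
      obtain ⟨w, hw1, hw2⟩ := partner hT hτ1 hη hs.1 hs.2
      exact ⟨w, fun _ => ⟨by rw [hR]; exact hw1, hw2⟩⟩
    · exact ⟨0, fun h => absurd h hs⟩
  choose g hg using hpart
  have hBI : B ⊆ ZI η T := by rw [hB]; exact filter_subset _ _
  have hBZ : B ⊆ Zs T := hBI.trans (ZI_sub _ _)
  have hRZ : R ⊆ Zs T := by rw [hR]; exact filter_subset _ _
  have hinj : ∀ s ∈ B, ∀ s' ∈ B, g s = g s' → s = s' := by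
    intro s hs s' hs' he
    by_contra hne
    have c1 := (hg s hs).2
    have c2 := (hg s' hs').2
    rw [← he] at c2
    have c3 := ZI_sep (hBI hs) (Zs_ZD hT (hBZ hs')) (fun h => hne h.symm)
    rw [line_norm (ZI_re (hBI hs)) (ZI_re (hBI hs'))] at c3
    have c4 : |s.im - s'.im| ≤ |s.im - (g s).im| + |s'.im - (g s).im| := by
      have := abs_sub_le s.im (g s).im s'.im
      rw [abs_sub_comm (g s).im s'.im] at this
      exact this
    have c5 : τ / Real.log T + τ / Real.log T < η / Real.log T := by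
      rw [← add_div]
      exact div_lt_div_of_pos_right (by linarith) hL
    linarith [add_le_add c1 c2]
  have hsp := spoil hD hE0.le b4 b hT1 hL hlN hlN0 (r := τ / Real.log T) (by positivity) B R hBZ hRZ g
    (fun s hs => (hg s hs).1) hinj (fun s hs => (hg s hs).2)
  have hr : τ / Real.log T * Real.log T = τ := by field_simp
  rw [hr] at hsp
  obtain ⟨P, hP⟩ : ∃ P : ℝ, P = 1 / (2 * Real.pi) := ⟨_, rfl⟩
  obtain ⟨M, hM⟩ : ∃ M : ℝ, M = Real.log T * (T * N2 N b) := ⟨_, rfl⟩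
  obtain ⟨c, hc⟩ : ∃ c : ℝ, c = H370.cMTinv := ⟨_, rfl⟩
  have hpi := Real.pi_gt_three
  have hpi2 := Real.pi_lt_d2
  have hP1 : 0.15 ≤ P := by
    rw [hP, le_div_iff₀ (by positivity)]
    norm_num at hpi2 ⊢
    linarith
  have hP2 : P ≤ 1 := by
    rw [hP, div_le_one (by positivity)]
    linarith
  have hM0 : 0 ≤ M := by
    rw [hM]
    have := N2_nonneg N b
    positivity
  have e1 : ∀ x : ℝ, x * (Real.log T / (2 * Real.pi)) * (T * N2 N b) = x * (P * M) := by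
    intro x
    rw [hP, hM]
    ring
  have e2 : Real.log T / (2 * Real.pi) * (T * N2 N b) = P * M := by
    rw [hP, hM]
    ring
  have e3 : E * Real.log T * (T * N2 N b) = E * M := by
    rw [hM]
    ring
  rw [e1, ← hc] at b1 b2
  rw [e2, e3] at b3'
  rw [← hP, ← hM] at hsp
  rw [e1]
  unfold cO
  rw [← hc]
  -- the zeros to the right of the line
  obtain ⟨A, hA⟩ : ∃ A : ℝ, A = ∑ s ∈ Zs T, mu s * ‖dp N b s.im‖ ^ 2 := ⟨_, rfl⟩
  obtain ⟨W, hW⟩ : ∃ W : ℝ, W = ∑ s ∈ R, mu s * ‖dp N b s.im‖ ^ 2 := ⟨_, rfl⟩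
  rw [← hA] at b3'
  rw [← hW] at hsp
  have d1 : (3 - c) / 2 * (P * M) - E * (P * M) + W ≤ A := by
    have d2 : A = ∑ s ∈ (Zs T).filter (fun s => s.re ≤ 1 / 2), mu s * ‖dp N b s.im‖ ^ 2 + W := by
      rw [hA, hW, hR]
      exact (sum_filter_add_sum_filter_not _ _ _).symm
    have d3 : ∑ s ∈ (Zs T).filter (fun s => s.re ≤ 1 / 2), ‖dp N b s.im‖ ^ 2 ≤
        ∑ s ∈ (Zs T).filter (fun s => s.re ≤ 1 / 2), mu s * ‖dp N b s.im‖ ^ 2 :=
      sum_le_sum fun s hs => le_mul_of_one_le_left (by positivity) (mu_one hT1 (mem_filter.1 hs).1)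
    have d4 : ((3 - c) / 2 - E) * (P * M) ≤ ∑ s ∈ (Zs T).filter (fun s => s.re ≤ 1 / 2), ‖dp N b s.im‖ ^ 2 := b2
    rw [d2]
    have d5 : ((3 - c) / 2 - E) * (P * M) = (3 - c) / 2 * (P * M) - E * (P * M) := by ring
    linarith
  -- the isolated zeros
  have f1 : ∑ s ∈ ZI η T, ‖dp N b s.im‖ ^ 2 ≤ ∑ s ∈ ZO τ T, ‖dp N b s.im‖ ^ 2 + ∑ s ∈ B, ‖dp N b s.im‖ ^ 2 := by
    rw [← sum_filter_add_sum_filter_not (ZI η T) (fun s => s ∈ ZO τ T), hB]
    refine add_le_add_left (sum_le_sum_of_subset_of_nonneg (fun s hs => (mem_filter.1 hs).2) fun s _ _ => by positivity) _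
  have g1 := (abs_le.1 b3').2
  obtain ⟨U, hU⟩ : ∃ U : ℝ, U = P * M := ⟨_, rfl⟩
  rw [← hU] at b1 d1 g1 ⊢
  have g2 : 0.15 * M ≤ U := by rw [hU]; exact mul_le_mul_of_nonneg_right hP1 hM0
  have hU0 : 0 ≤ U := le_trans (by positivity) g2
  have g3 : E * U ≤ ε / 40 * U := mul_le_mul_of_nonneg_right hE2 hU0
  have g4 : E * M ≤ ε / 40 * M := mul_le_mul_of_nonneg_right hE2 hM0
  have g5 : 4 * τ * ((P + E) * M) ≤ ε / 50 * M := by
    have g6 : (P + E) * M ≤ 2 * M := mul_le_mul_of_nonneg_right (by linarith) hM0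
    calc 4 * τ * ((P + E) * M) ≤ 4 * τ * (2 * M) := mul_le_mul_of_nonneg_left g6 (by positivity)
      _ = 8 * τ * M := by ring
      _ ≤ ε / 50 * M := mul_le_mul_of_nonneg_right (by linarith) hM0
  have g7 : ε * (0.15 * M) ≤ ε * U := mul_le_mul_of_nonneg_left g2 hε.le
  have g8 : (2 - c - E) * U = 2 * U - c * U - E * U := by ring
  have g9 : (3 - c) / 2 * U = 3 / 2 * U - c * U / 2 := by ring
  have g10 : (2 - (3 * c - 1) / 2 - ε) * U = 5 / 2 * U - 3 / 2 * (c * U) - ε * U := by ring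
  have g11 : ε / 40 * U = (ε * U) / 40 := by ring
  have g12 : ε / 40 * M = (ε * M) / 40 := by ring
  have g13 : ε / 50 * M = (ε * M) / 50 := by ring
  have g14 : ε * (0.15 * M) = 0.15 * (ε * M) := by ring
  have g15 : 0 ≤ ε * M := by positivity
  rw [g8] at b1
  rw [g9] at d1
  rw [g11] at g3
  rw [g12] at g4
  rw [g13] at g5
  rw [g14] at g7
  rw [g10]
  norm_num at g7
  linarith

end Run7.h751.ZO
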