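import Pool.Agent.Run7.h751.ZO.Y2

set_option autoImplicit false

/-! # Asymptotics over the good zeros with isolated ordinates -/

namespace Run7.h751.ZO

open Finset Filter MeasureTheory Topology Complex
open Run7.h751.ZM
open Pool.Agent.N748.MG

theorem ZO_sub (τ T : ℝ) : ZO τ T ⊆ Zs T := by
  unfold ZO
  exact (filter_subset _ _).trans (ZI_sub _ _)

theorem c1o : 1 < cO := by
  have := H370.cMTinv_gt_one
  unfold cO
  linarith

theorem c2o : cO < 3 / 2 := by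
  have h1 : H370.cMTinv ≤ 1.3274995 := Pool.Agent.Q97.UM.cMT_strict
  unfold cO
  norm_num at h1 ⊢
  linarith

theorem so : S_SAMPO := t_SAMPO inp.dp inp.sa inp.si

/-- the distinct zeros with the weaker constant -/
theorem samp_cO (h : Pool.Agent.Q97.UM.S_SAMP) : ∀ ε : ℝ, 0 < ε → ∃ θ : ℝ, 0 < θ ∧ θ ≤ 1 / 40 ∧ ∀ᶠ T : ℝ in atTop,
    ∀ N : ℕ, (N : ℝ) ≤ T ^ θ → ∀ b : ℕ → ℂ, True ∧
    ((3 - cO) / 2 - ε) * (Real.log T / (2 * Real.pi)) * (T * Pool.Agent.Q97.UM.N2 N b) ≤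
      ∑ s ∈ (H370.Zf riemannZeta T (2 * T)).filter (fun s => s.re ≤ 1 / 2), ‖Pool.Agent.Q97.UM.dp N b s.im‖ ^ 2 ∧
    |(∑ s ∈ H370.Zf riemannZeta T (2 * T), (Pool.Agent.Q97.UM.mz s : ℝ) * ‖Pool.Agent.Q97.UM.dp N b s.im‖ ^ 2) -
      Real.log T / (2 * Real.pi) * (T * Pool.Agent.Q97.UM.N2 N b)| ≤
      ε * Real.log T * (T * Pool.Agent.Q97.UM.N2 N b) := by
  intro ε hε
  obtain ⟨θ, h1, h2, h3⟩ := h ε hε
  refine ⟨θ, h1, h2, ?_⟩
  filter_upwards [h3, eventually_ge_atTop 1] with T a hT N hN b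
  obtain ⟨-, a2, a3⟩ := a N hN b
  refine ⟨trivial, le_trans ?_ a2, a3⟩
  have hc := H370.cMTinv_gt_one
  have hpi := Real.pi_pos
  have h4 : 0 ≤ Real.log T / (2 * Real.pi) := div_nonneg (Real.log_nonneg hT) (by positivity)
  have h5 : 0 ≤ T * Pool.Agent.Q97.UM.N2 N b := mul_nonneg (by linarith) (Pool.Agent.Q61.UM.N2_nonneg N b)
  have h6 : (3 - cO) / 2 - ε ≤ (3 - H370.cMTinv) / 2 - ε := by
    unfold cO
    linarith
  exact mul_le_mul_of_nonneg_right (mul_le_mul_of_nonneg_right h6 h4) h5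

open Classical in
/-- the moments over the good zeros, over the isolated simple zeros on the critical line, and over the distinct
zeros which are not to the right of the line -/
theorem main1o (hDP : Pool.Agent.Q97.UM.S_DPM) (hMV : Pool.Agent.Q97.UM.S_MVL) (hSA : Pool.Agent.Q97.UM.S_SAMP)
    (hSI : S_SAMPO) (hL4 : S_L4) (hSN : Run7.h310.SP.S_SNIC) (hCM : S_CMP) (hD1 : S_DIA1)
    (hD2 : S_DIA2) (hc : S_CON) (c1 : 1 < cO) (c2 : cO < 3 / 2)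
    (R ε D : ℝ) (hR : 0 < R) (hε : 0 < ε) (hD : 0 < D) :
    ∃ η : ℝ, 0 < η ∧ η ≤ 1 ∧ Ev fun T δ => ∃ G : Set ℝ,
      ∑ s ∈ (Zs T).filter (fun s => s.im ∉ G), mu s ≤ δ ^ D * (T * Real.log T) ∧
      (∀ t ∈ G, riemannZeta (pw δ t) ≠ 0) ∧
      ∀ k : ℝ, 0 ≤ k → k ≤ R →
        |(2 * δ) ^ (k ^ 2) * ∑ s ∈ (Zs T).filter (fun s => s.im ∈ G), mu s * mz δ s.im ^ (2 * k) -
          (aC k).re * (T * Real.log T / (2 * Real.pi))| ≤ ε * (T * Real.log T) ∧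
        (2 - cO) * (aC k).re * (T * Real.log T / (2 * Real.pi)) - ε * (T * Real.log T) ≤
          (2 * δ) ^ (k ^ 2) * ∑ s ∈ (ZO η T).filter (fun s => s.im ∈ G), mz δ s.im ^ (2 * k) ∧
        (3 - cO) / 2 * (aC k).re * (T * Real.log T / (2 * Real.pi)) - ε * (T * Real.log T) ≤
          (2 * δ) ^ (k ^ 2) * ∑ s ∈ ((Zs T).filter (fun s => s.re ≤ 1 / 2)).filter (fun s => s.im ∈ G),
            mz δ s.im ^ (2 * k) := by
  obtain ⟨A, hA0, hA⟩ := aC_bdd hc R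
  obtain ⟨ε1, hε1⟩ : ∃ e : ℝ, e = min (1 / 10) (ε / (8 * (A + 2))) := ⟨_, rfl⟩
  have he0 : 0 < ε1 := by rw [hε1]; positivity
  have he1 : ε1 ≤ 1 / 10 := by rw [hε1]; exact min_le_left _ _
  have he2 : ε1 * (A + 2) ≤ ε / 8 := by
    have h1 : ε1 ≤ ε / (8 * (A + 2)) := by rw [hε1]; exact min_le_right _ _
    calc ε1 * (A + 2) ≤ ε / (8 * (A + 2)) * (A + 2) := mul_le_mul_of_nonneg_right h1 (by linarith)
      _ = ε / 8 := by field_simp
  obtain ⟨η, θ1, hη, hη1, hθ1, -, hI⟩ := hSI ε1 he0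
  obtain ⟨θ2, hθ2, -, hS⟩ := samp_cO hSA ε1 he0
  obtain ⟨C2, δ2, hC2, hδ2, hN2⟩ := N2_asym hD1 hD2 hc R ε1 hR.le he0
  obtain ⟨θ, hθ⟩ : ∃ t : ℝ, t = min θ1 θ2 := ⟨_, rfl⟩
  have hθ0 : 0 < θ := by rw [hθ]; exact lt_min hθ1 hθ2
  have hCt : 0 < max C2 (1 / θ) := lt_max_of_lt_left hC2
  have hred := zred hDP hMV hSA hL4 hSN hCM R D hR hD (max C2 (1 / θ)) hCt
  refine ⟨η, hη, hη1, ((hred.and ((Ev.of_ev (hI.and (hS.and (count hSA (1 / 2) (by norm_num))))).and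
    (Ev.of_ev (eventually_ge_atTop (16:ℝ))))).and ((Ev.of_le hδ2).and
    (Ev.small (C := 1) (c := D) (e := ε / 8) hD (by positivity)))).mono ?_⟩
  rintro T δ hT1 hδ hδ16 ⟨⟨⟨y, K, G, hy, g1, g2, g3, g4, g5, g6⟩, ⟨i1, i2, i3⟩, hT16⟩, hδ3, hsm⟩
  rw [one_mul] at hsm
  have hL := log_inv_ge hδ hδ16
  have hT0 : 0 < T := by linarith
  have hlT : 0 < Real.log T := Real.log_pos (by linarith)
  obtain ⟨X, hX⟩ : ∃ X : ℝ, X = T * Real.log T := ⟨_, rfl⟩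
  have hX0 : 0 < X := by rw [hX]; positivity
  have hlog : 0 ≤ Real.log y := Real.log_nonneg (by linarith)
  have hKθ : (K:ℝ) * Real.log y ≤ θ * Real.log T := by
    have h1 : 1 / θ * ((K + 1) * Real.log y) ≤ Real.log T :=
      (mul_le_mul_of_nonneg_right (le_max_right _ _) (by positivity)).trans g3
    have h2 : (K + 1) * Real.log y ≤ θ * Real.log T := by
      have h3 := mul_le_mul_of_nonneg_left h1 hθ0.le
      have h4 : θ * (1 / θ * ((K + 1) * Real.log y)) = (K + 1) * Real.log y := by field_simp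
      linarith
    linarith
  have hN : (nA y K : ℝ) ≤ T ^ θ := nA_pow hy (by linarith) hKθ
  have hNa : (nA y K : ℝ) ≤ T ^ θ1 := hN.trans (Real.rpow_le_rpow_of_exponent_le (by linarith) (by rw [hθ]; exact min_le_left _ _))
  have hNb : (nA y K : ℝ) ≤ T ^ θ2 := hN.trans (Real.rpow_le_rpow_of_exponent_le (by linarith) (by rw [hθ]; exact min_le_right _ _))
  have hpi := Real.pi_gt_three
  have hcnt : ∑ s ∈ Zs T, mu s ≤ X := by
    have h1 := (abs_le.1 i3).2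
    rw [← hX] at h1
    have h2 : X / (2 * Real.pi) ≤ X / 6 := by
      apply div_le_div_of_nonneg_left hX0.le (by norm_num)
      linarith
    have : T * Real.log T / (2 * Real.pi) = X / (2 * Real.pi) := by rw [hX]
    linarith
  refine ⟨G, g4, g5, fun k hk hkR => ?_⟩
  obtain ⟨ha0, haA⟩ := hA k hk hkR
  obtain ⟨g7, g8⟩ := g6 k hk hkR
  set b := bA (k:ℂ) δ y K with hb
  have s1 := i1 (nA y K) hNa b
  obtain ⟨-, s2, s3⟩ := i2 (nA y K) hNb b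
  have hN2k := hN2 δ hδ hδ3 y K hy ((mul_le_mul_of_nonneg_right (le_max_left _ _) (by linarith)).trans g1)
    ((mul_le_mul_of_nonneg_right (le_max_left _ _) (by linarith)).trans g2) k (by rw [abs_of_nonneg hk]; exact hkR)
  rw [← hb] at hN2k
  obtain ⟨a, ha⟩ : ∃ a : ℝ, a = (aC k).re := ⟨_, rfl⟩
  obtain ⟨q, hq⟩ : ∃ q : ℝ, q = (2 * δ) ^ (k ^ 2) := ⟨_, rfl⟩
  obtain ⟨c, hcc⟩ : ∃ c : ℝ, c = cO := ⟨_, rfl⟩
  rw [← ha] at ha0 haA hN2k ⊢
  rw [← hq] at hN2k ⊢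
  rw [← hcc] at c1 c2 s1 s2 ⊢
  have hq0 : 0 ≤ q := by rw [hq]; positivity
  have hq1 : q ≤ 1 := by rw [hq]; exact Real.rpow_le_one (by positivity) (by linarith) (by positivity)
  obtain ⟨nn, hnn⟩ : ∃ n : ℝ, n = Pool.Agent.Q97.UM.N2 (nA y K) b := ⟨_, rfl⟩
  rw [← hnn] at hN2k s1 s2 s3
  have hnn0 : 0 ≤ nn := by rw [hnn]; unfold Pool.Agent.Q97.UM.N2; positivity
  obtain ⟨lw, hlw⟩ : ∃ l : ℝ, l = Real.log T / (2 * Real.pi) := ⟨_, rfl⟩
  rw [← hlw] at s1 s2 s3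
  have hlw0 : 0 ≤ lw := by rw [hlw]; positivity
  have hlw1 : lw ≤ Real.log T := by
    rw [hlw]
    apply div_le_self hlT.le
    linarith
  have hXw : T * Real.log T / (2 * Real.pi) = lw * T := by rw [hlw]; ring
  rw [hXw, ← hX]
  -- the main term
  obtain ⟨V, hV⟩ : ∃ V : ℝ, V = q * (T * nn) := ⟨_, rfl⟩
  have hV0 : 0 ≤ V := by rw [hV]; positivity
  have hVa : |V - T * a| ≤ T * ε1 := by
    have e1 : V - T * a = T * (q * nn - a) := by rw [hV]; ring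
    rw [e1, abs_mul, abs_of_pos hT0]
    exact mul_le_mul_of_nonneg_left hN2k hT0.le
  have hVA : V ≤ T * (A + 1) := by
    have h1 := (abs_le.1 hVa).2
    nlinarith
  have hlVa : |lw * V - a * (lw * T)| ≤ ε1 * X := by
    have e1 : lw * V - a * (lw * T) = lw * (V - T * a) := by ring
    rw [e1, abs_mul, abs_of_nonneg hlw0]
    calc lw * |V - T * a| ≤ Real.log T * (T * ε1) := mul_le_mul hlw1 hVa (abs_nonneg _) hlT.le
      _ = ε1 * X := by rw [hX]; ring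
  have hlV : lw * V ≤ (A + 1) * X := by
    calc lw * V ≤ Real.log T * (T * (A + 1)) := mul_le_mul hlw1 hVA hV0 hlT.le
      _ = (A + 1) * X := by rw [hX]; ring
  have hLV : Real.log T * V ≤ (A + 1) * X := by
    calc Real.log T * V ≤ Real.log T * (T * (A + 1)) := mul_le_mul_of_nonneg_left hVA hlT.le
      _ = (A + 1) * X := by rw [hX]; ring
  have hdp : ∀ t, ‖Pool.Agent.Q97.UM.dp (nA y K) b t‖ ^ 2 = ‖AS (k:ℂ) y K (pw δ t)‖ ^ 2 := by
    intro t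
    rw [hb, dp_bA]
  simp only [hdp] at s1 s2 s3
  have hw0 : 0 ≤ δ ^ D := Real.rpow_nonneg hδ.le _
  have hAn : ∀ t : ℝ, 0 ≤ ‖AS (k:ℂ) y K (pw δ t)‖ ^ 2 := fun t => sq_nonneg _
  rw [← hX] at g8
  have hwX : 2 * δ ^ D * X ≤ ε / 4 * X := mul_le_mul_of_nonneg_right (by linarith) hX0.le
  have heX : ε1 * (A + 2) * X ≤ ε / 8 * X := mul_le_mul_of_nonneg_right he2 hX0.le
  have hεX : 0 < ε * X := by positivity
  have hlVlo := (abs_le.1 hlVa).1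
  refine ⟨?_, ?_, ?_⟩
  · have h1 := partm (T := T) (q := q) (X := X) (w := δ ^ D) (κ := 2 * k) (G := G) (fun t => ‖AS (k:ℂ) y K (pw δ t)‖ ^ 2)
      hw0 hq0 hq1 hAn hcnt g7 g8
    have h2 : |q * ∑ s ∈ Zs T, mu s * ‖AS (k:ℂ) y K (pw δ s.im)‖ ^ 2 - lw * V| ≤ ε1 * (A + 1) * X := by
      have e1 : q * ∑ s ∈ Zs T, mu s * ‖AS (k:ℂ) y K (pw δ s.im)‖ ^ 2 - lw * V =
          q * ((∑ s ∈ H370.Zf riemannZeta T (2 * T), (Pool.Agent.Q97.UM.mz s : ℝ) * ‖AS (k:ℂ) y K (pw δ s.im)‖ ^ 2) -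
            lw * (T * nn)) := by
        rw [hV]
        have : ∑ s ∈ Zs T, mu s * ‖AS (k:ℂ) y K (pw δ s.im)‖ ^ 2 =
          ∑ s ∈ H370.Zf riemannZeta T (2 * T), (Pool.Agent.Q97.UM.mz s : ℝ) * ‖AS (k:ℂ) y K (pw δ s.im)‖ ^ 2 := rfl
        rw [this]
        ring
      rw [e1, abs_mul, abs_of_nonneg hq0]
      calc _ ≤ q * (ε1 * Real.log T * (T * nn)) := mul_le_mul_of_nonneg_left s3 hq0
        _ = ε1 * (Real.log T * V) := by rw [hV]; ring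
        _ ≤ ε1 * ((A + 1) * X) := mul_le_mul_of_nonneg_left hLV he0.le
        _ = _ := by ring
    have h3 : q * ∑ s ∈ (Zs T).filter (fun s => s.im ∈ G), mu s * mz δ s.im ^ (2 * k) - a * (lw * T) =
        (q * ∑ s ∈ (Zs T).filter (fun s => s.im ∈ G), mu s * mz δ s.im ^ (2 * k) -
          q * ∑ s ∈ Zs T, mu s * ‖AS (k:ℂ) y K (pw δ s.im)‖ ^ 2) +
        (q * ∑ s ∈ Zs T, mu s * ‖AS (k:ℂ) y K (pw δ s.im)‖ ^ 2 - lw * V) + (lw * V - a * (lw * T)) := by ring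
    rw [h3]
    refine (abs_add_le _ _).trans ?_
    have h4 := abs_add_le (q * ∑ s ∈ (Zs T).filter (fun s => s.im ∈ G), mu s * mz δ s.im ^ (2 * k) -
          q * ∑ s ∈ Zs T, mu s * ‖AS (k:ℂ) y K (pw δ s.im)‖ ^ 2)
        (q * ∑ s ∈ Zs T, mu s * ‖AS (k:ℂ) y K (pw δ s.im)‖ ^ 2 - lw * V)
    have h5 : ε1 * (A + 1) * X + ε1 * X = ε1 * (A + 2) * X := by ring
    linarith
  · have h1 := part (T := T) (q := q) (X := X) (w := δ ^ D) (κ := 2 * k) (G := G) (fun t => ‖AS (k:ℂ) y K (pw δ t)‖ ^ 2)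
      (by linarith) hw0 hq0 hq1 hAn hcnt g7 g8 (ZO η T) (ZO_sub _ _)
    refine le_trans ?_ h1
    have h2 : (2 - c - ε1) * (lw * V) ≤ q * ∑ s ∈ ZO η T, ‖AS (k:ℂ) y K (pw δ s.im)‖ ^ 2 := by
      calc (2 - c - ε1) * (lw * V) = q * ((2 - c - ε1) * lw * (T * nn)) := by rw [hV]; ring
        _ ≤ _ := mul_le_mul_of_nonneg_left s1 hq0
    have h3 : (2 - c) * (lw * V) ≥ (2 - c) * (a * (lw * T) - ε1 * X) :=
      mul_le_mul_of_nonneg_left (by linarith) (by linarith)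
    have h4 : (2 - c) * (ε1 * X) ≤ ε1 * X := mul_le_of_le_one_left (by positivity) (by linarith)
    have h5 : ε1 * (lw * V) ≤ ε1 * ((A + 1) * X) := mul_le_mul_of_nonneg_left hlV he0.le
    have h6 : ε1 * ((A + 1) * X) + ε1 * X = ε1 * (A + 2) * X := by ring
    have h7 : (2 - c) * a * (lw * T) = (2 - c) * (a * (lw * T)) := by ring
    rw [h7]
    nlinarith
  · have h1 := part (T := T) (q := q) (X := X) (w := δ ^ D) (κ := 2 * k) (G := G) (fun t => ‖AS (k:ℂ) y K (pw δ t)‖ ^ 2)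
      (by linarith) hw0 hq0 hq1 hAn hcnt g7 g8 ((Zs T).filter (fun s => s.re ≤ 1 / 2)) (filter_subset _ _)
    refine le_trans ?_ h1
    have h2 : ((3 - c) / 2 - ε1) * (lw * V) ≤
        q * ∑ s ∈ (Zs T).filter (fun s => s.re ≤ 1 / 2), ‖AS (k:ℂ) y K (pw δ s.im)‖ ^ 2 := by
      calc ((3 - c) / 2 - ε1) * (lw * V) = q * (((3 - c) / 2 - ε1) * lw * (T * nn)) := by rw [hV]; ring
        _ ≤ _ := mul_le_mul_of_nonneg_left s2 hq0
    have h3 : (3 - c) / 2 * (lw * V) ≥ (3 - c) / 2 * (a * (lw * T) - ε1 * X) :=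
      mul_le_mul_of_nonneg_left (by linarith) (by linarith)
    have h4 : (3 - c) / 2 * (ε1 * X) ≤ ε1 * X := mul_le_of_le_one_left (by positivity) (by linarith)
    have h5 : ε1 * (lw * V) ≤ ε1 * ((A + 1) * X) := mul_le_mul_of_nonneg_left hlV he0.le
    have h6 : ε1 * ((A + 1) * X) + ε1 * X = ε1 * (A + 2) * X := by ring
    have h7 : (3 - c) / 2 * a * (lw * T) = (3 - c) / 2 * (a * (lw * T)) := by ring
    rw [h7]
    nlinarith

end Run7.h751.ZO
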