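import Pool.Agent.Run7.h751.ZO.Y3

set_option autoImplicit false

/-! # Truncation -/

namespace Run7.h751.ZO

open Finset Filter MeasureTheory Topology Complex
open Run7.h751.ZM
open Pool.Agent.N748.MG

open Classical in
theorem trunco (hDP : Pool.Agent.Q97.UM.S_DPM) (hMV : Pool.Agent.Q97.UM.S_MVL) (hSA : Pool.Agent.Q97.UM.S_SAMP)
    (hSI : S_SAMPO) (hL4 : S_L4) (hSN : Run7.h310.SP.S_SNIC) (hCM : S_CMP) (hD1 : S_DIA1)
    (hD2 : S_DIA2) (hc : S_CON) (c1 : 1 < cO) (c2 : cO < 3 / 2)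
    (k1 k2 V ε : ℝ) (hk1 : 0 < k1) (hk12 : k1 ≤ k2) (hkV : k2 < V) (hε : 0 < ε) :
    ∃ η : ℝ, 0 < η ∧ η ≤ 1 ∧ Ev fun T δ => ∀ k : ℝ, k1 ≤ k → k ≤ k2 →
        |(2 * δ) ^ (k ^ 2) * ∑ s ∈ (Zs T).filter (fun s => mz δ s.im ≤ (2 * δ) ^ (-V)), mu s * mz δ s.im ^ (2 * k) -
          (aC k).re * (T * Real.log T / (2 * Real.pi))| ≤ ε * (T * Real.log T) ∧
        (2 - cO) * (aC k).re * (T * Real.log T / (2 * Real.pi)) - ε * (T * Real.log T) ≤
          (2 * δ) ^ (k ^ 2) * ∑ s ∈ (ZO η T).filter (fun s => mz δ s.im ≤ (2 * δ) ^ (-V)),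
            mz δ s.im ^ (2 * k) ∧
        (3 - cO) / 2 * (aC k).re * (T * Real.log T / (2 * Real.pi)) - ε * (T * Real.log T) ≤
          (2 * δ) ^ (k ^ 2) * ∑ s ∈ ((Zs T).filter (fun s => s.re ≤ 1 / 2)).filter
            (fun s => mz δ s.im ≤ (2 * δ) ^ (-V)), mz δ s.im ^ (2 * k) := by
  obtain ⟨e, he⟩ : ∃ e : ℝ, e = min 1 (V - k2) := ⟨_, rfl⟩
  have he0 : 0 < e := by rw [he]; exact lt_min one_pos (by linarith)
  have he1 : e ≤ 1 := by rw [he]; exact min_le_left _ _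
  have heV : e ≤ V - k2 := by rw [he]; exact min_le_right _ _
  have hV0 : 0 < V := by linarith
  have hk20 : 0 < k2 := by linarith
  obtain ⟨A, hA0, hA⟩ := aC_bdd hc (k2 + 1)
  obtain ⟨η, hη, hη1, hev⟩ := main1o hDP hMV hSA hSI hL4 hSN hCM hD1 hD2 hc c1 c2 (k2 + 1) (ε / 2) (2 * k2 * V + 1)
    (by linarith) (by positivity) (by positivity)
  refine ⟨η, hη, hη1, ((hev.and (Ev.of_ev (eventually_ge_atTop (16:ℝ)))).and
    ((Ev.small (C := 1) (c := 1) (e := ε / 2) one_pos (by positivity)).and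
    (Ev.small (C := 2 ^ (e ^ 2) * (A + ε)) (c := e ^ 2) (e := ε / 2) (by positivity) (by positivity)))).mono ?_⟩
  rintro T δ hT1 hδ hδ16 ⟨⟨⟨G, g4, g5, g6⟩, hT16⟩, hs1, hs2⟩
  rw [one_mul, Real.rpow_one] at hs1
  have hT0 : 0 < T := by linarith
  have hlT : 0 < Real.log T := Real.log_pos (by linarith)
  obtain ⟨X, hX⟩ : ∃ X : ℝ, X = T * Real.log T := ⟨_, rfl⟩
  have hX0 : 0 < X := by rw [hX]; positivity
  have h2δ : 0 < 2 * δ := by linarith
  have h2δ1 : 2 * δ ≤ 1 := by linarith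
  intro k hk hk'
  have hk0 : 0 < k := by linarith
  obtain ⟨m1, m2, m3⟩ := g6 k hk0.le (by linarith)
  obtain ⟨m4, -, -⟩ := g6 (k + e) (by linarith) (by linarith)
  obtain ⟨-, haA⟩ := hA (k + e) (by linarith) (by linarith)
  rw [← hX] at g4 m1 m2 m3 m4 ⊢
  obtain ⟨cc, hcc⟩ : ∃ cc : ℝ, cc = (2 * δ) ^ (-V) := ⟨_, rfl⟩
  rw [← hcc]
  have hcc0 : 0 < cc := by rw [hcc]; exact Real.rpow_pos_of_pos h2δ _
  obtain ⟨q, hq⟩ : ∃ q : ℝ, q = (2 * δ) ^ (k ^ 2) := ⟨_, rfl⟩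
  rw [← hq] at m1 m2 m3 ⊢
  have hq0 : 0 ≤ q := by rw [hq]; positivity
  have hq1 : q ≤ 1 := by rw [hq]; exact Real.rpow_le_one h2δ.le h2δ1 (by positivity)
  -- the bad part
  have hE1 : q * ∑ s ∈ ((Zs T).filter (fun s => s.im ∉ G)).filter (fun s => mz δ s.im ≤ cc), mu s * mz δ s.im ^ (2 * k) ≤
      ε / 2 * X := by
    have h1 : ∑ s ∈ ((Zs T).filter (fun s => s.im ∉ G)).filter (fun s => mz δ s.im ≤ cc), mu s * mz δ s.im ^ (2 * k) ≤
        cc ^ (2 * k) * (δ ^ (2 * k2 * V + 1) * X) := by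
      have h2 : ∑ s ∈ ((Zs T).filter (fun s => s.im ∉ G)).filter (fun s => mz δ s.im ≤ cc), mu s * mz δ s.im ^ (2 * k) ≤
          ∑ s ∈ ((Zs T).filter (fun s => s.im ∉ G)).filter (fun s => mz δ s.im ≤ cc), mu s * cc ^ (2 * k) := by
        refine sum_le_sum fun s hs => mul_le_mul_of_nonneg_left ?_ (mu_nn s)
        exact Real.rpow_le_rpow (norm_nonneg _) (mem_filter.1 hs).2 (by linarith)
      refine h2.trans ?_
      rw [← sum_mul, mul_comm]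
      refine mul_le_mul_of_nonneg_left (le_trans ?_ g4) (by positivity)
      exact sum_le_sum_of_subset_of_nonneg (filter_subset _ _) fun s _ _ => mu_nn s
    have h3 : cc ^ (2 * k) * δ ^ (2 * k2 * V + 1) ≤ δ := by
      have e1 : cc ^ (2 * k) = (2 * δ) ^ (-(2 * k * V)) := by
        rw [hcc, ← Real.rpow_mul h2δ.le]
        congr 1
        ring
      have e2 : δ ^ (2 * k2 * V) ≤ (2 * δ) ^ (2 * k * V) := by
        calc δ ^ (2 * k2 * V) ≤ (2 * δ) ^ (2 * k2 * V) := Real.rpow_le_rpow hδ.le (by linarith) (by positivity)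
          _ ≤ (2 * δ) ^ (2 * k * V) := Real.rpow_le_rpow_of_exponent_ge h2δ h2δ1 (by nlinarith)
      have e3 : (2 * δ) ^ (-(2 * k * V)) * (2 * δ) ^ (2 * k * V) = 1 := by
        rw [← Real.rpow_add h2δ]
        simp
      rw [e1, Real.rpow_add_one hδ.ne']
      calc (2 * δ) ^ (-(2 * k * V)) * (δ ^ (2 * k2 * V) * δ) ≤ (2 * δ) ^ (-(2 * k * V)) * ((2 * δ) ^ (2 * k * V) * δ) := by
            gcongr
        _ = ((2 * δ) ^ (-(2 * k * V)) * (2 * δ) ^ (2 * k * V)) * δ := by ring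
        _ = δ := by rw [e3, one_mul]
    calc _ ≤ 1 * (cc ^ (2 * k) * (δ ^ (2 * k2 * V + 1) * X)) :=
          mul_le_mul hq1 h1 (sum_nonneg fun s _ => mul_nonneg (mu_nn s) (mzk_nn _ _ _)) zero_le_one
      _ = (cc ^ (2 * k) * δ ^ (2 * k2 * V + 1)) * X := by ring
      _ ≤ δ * X := mul_le_mul_of_nonneg_right h3 hX0.le
      _ ≤ _ := mul_le_mul_of_nonneg_right hs1 hX0.le
  -- large values
  have hE2 : q * ∑ s ∈ ((Zs T).filter (fun s => s.im ∈ G)).filter (fun s => ¬ mz δ s.im ≤ cc), mu s * mz δ s.im ^ (2 * k) ≤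
      ε / 2 * X := by
    have h1 := tail (T := T) (δ := δ) (k := k) (e := e) (cc := cc) ((Zs T).filter (fun s => s.im ∈ G)) mu mu_nn hcc0 he0.le
    obtain ⟨S, hS⟩ : ∃ S : ℝ, S = ∑ s ∈ (Zs T).filter (fun s => s.im ∈ G), mu s * mz δ s.im ^ (2 * (k + e)) := ⟨_, rfl⟩
    rw [← hS] at h1 m4
    have hS0 : 0 ≤ S := by rw [hS]; exact sum_nonneg fun s _ => mul_nonneg (mu_nn s) (mzk_nn _ _ _)
    have h2 : (2 * δ) ^ ((k + e) ^ 2) * S ≤ (A + ε) * X := by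
      have h3 := (abs_le.1 m4).2
      have h4 : X / (2 * Real.pi) ≤ X := by
        apply div_le_self hX0.le
        have := Real.pi_gt_three
        linarith
      have h5 : (aC (k + e : ℝ)).re * (X / (2 * Real.pi)) ≤ A * X := mul_le_mul haA h4 (by positivity) hA0.le
      have h6 : ε / 2 * X ≤ ε * X := mul_le_mul_of_nonneg_right (by linarith) hX0.le
      linarith
    have h7 : q * cc ^ (-(2 * e)) ≤ (2 * δ) ^ (e ^ 2) * (2 * δ) ^ ((k + e) ^ 2) := by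
      rw [hq, hcc, ← Real.rpow_mul h2δ.le, ← Real.rpow_add h2δ, ← Real.rpow_add h2δ]
      refine Real.rpow_le_rpow_of_exponent_ge h2δ h2δ1 ?_
      nlinarith
    calc _ ≤ q * (cc ^ (-(2 * e)) * S) := mul_le_mul_of_nonneg_left h1 hq0
      _ = (q * cc ^ (-(2 * e))) * S := by ring
      _ ≤ ((2 * δ) ^ (e ^ 2) * (2 * δ) ^ ((k + e) ^ 2)) * S := mul_le_mul_of_nonneg_right h7 hS0
      _ = (2 * δ) ^ (e ^ 2) * ((2 * δ) ^ ((k + e) ^ 2) * S) := by ring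
      _ ≤ (2 * δ) ^ (e ^ 2) * ((A + ε) * X) := mul_le_mul_of_nonneg_left h2 (by positivity)
      _ = (2 ^ (e ^ 2) * (A + ε) * δ ^ (e ^ 2)) * X := by rw [Real.mul_rpow (by norm_num) hδ.le]; ring
      _ ≤ _ := mul_le_mul_of_nonneg_right hs2 hX0.le
  have hsub : ∀ P : Finset ℂ, P ⊆ Zs T → q * ∑ s ∈ P.filter (fun s => s.im ∈ G), mz δ s.im ^ (2 * k) - ε / 2 * X ≤
      q * ∑ s ∈ P.filter (fun s => mz δ s.im ≤ cc), mz δ s.im ^ (2 * k) := by
    intro P hP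
    have h1 : ∑ s ∈ P.filter (fun s => s.im ∈ G), mz δ s.im ^ (2 * k) =
        ∑ s ∈ (P.filter (fun s => s.im ∈ G)).filter (fun s => mz δ s.im ≤ cc), mz δ s.im ^ (2 * k) +
        ∑ s ∈ (P.filter (fun s => s.im ∈ G)).filter (fun s => ¬ mz δ s.im ≤ cc), mz δ s.im ^ (2 * k) :=
      (sum_filter_add_sum_filter_not _ _ _).symm
    have h2 : ∑ s ∈ (P.filter (fun s => s.im ∈ G)).filter (fun s => mz δ s.im ≤ cc), mz δ s.im ^ (2 * k) ≤
        ∑ s ∈ P.filter (fun s => mz δ s.im ≤ cc), mz δ s.im ^ (2 * k) :=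
      sum_le_sum_of_subset_of_nonneg (filter_subset_filter _ (filter_subset _ _)) fun s _ _ => mzk_nn _ _ _
    have h3 : ∑ s ∈ (P.filter (fun s => s.im ∈ G)).filter (fun s => ¬ mz δ s.im ≤ cc), mz δ s.im ^ (2 * k) ≤
        ∑ s ∈ ((Zs T).filter (fun s => s.im ∈ G)).filter (fun s => ¬ mz δ s.im ≤ cc), mu s * mz δ s.im ^ (2 * k) := by
      refine (sum_le_sum_of_subset_of_nonneg (filter_subset_filter _ (filter_subset_filter _ hP))
        fun s _ _ => mzk_nn _ _ _).trans (sum_le_sum fun s hs => ?_)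
      exact le_mul_of_one_le_left (mzk_nn _ _ _) (mu_one (by linarith) (mem_filter.1 (mem_filter.1 hs).1).1)
    have h4 := mul_le_mul_of_nonneg_left h2 hq0
    have h5 := mul_le_mul_of_nonneg_left h3 hq0
    rw [h1, mul_add]
    linarith
  refine ⟨?_, ?_, ?_⟩
  · have h1 : ∑ s ∈ (Zs T).filter (fun s => mz δ s.im ≤ cc), mu s * mz δ s.im ^ (2 * k) =
        ∑ s ∈ ((Zs T).filter (fun s => s.im ∈ G)).filter (fun s => mz δ s.im ≤ cc), mu s * mz δ s.im ^ (2 * k) +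
        ∑ s ∈ ((Zs T).filter (fun s => s.im ∉ G)).filter (fun s => mz δ s.im ≤ cc), mu s * mz δ s.im ^ (2 * k) := by
      rw [filter_comm, filter_comm (p := fun s : ℂ => s.im ∉ G)]
      exact (sum_filter_add_sum_filter_not _ _ _).symm
    have h2 : ∑ s ∈ (Zs T).filter (fun s => s.im ∈ G), mu s * mz δ s.im ^ (2 * k) =
        ∑ s ∈ ((Zs T).filter (fun s => s.im ∈ G)).filter (fun s => mz δ s.im ≤ cc), mu s * mz δ s.im ^ (2 * k) +
        ∑ s ∈ ((Zs T).filter (fun s => s.im ∈ G)).filter (fun s => ¬ mz δ s.im ≤ cc), mu s * mz δ s.im ^ (2 * k) :=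
      (sum_filter_add_sum_filter_not _ _ _).symm
    have h3 : 0 ≤ q * ∑ s ∈ ((Zs T).filter (fun s => s.im ∉ G)).filter (fun s => mz δ s.im ≤ cc), mu s * mz δ s.im ^ (2 * k) :=
      mul_nonneg hq0 (sum_nonneg fun s _ => mul_nonneg (mu_nn s) (mzk_nn _ _ _))
    have h4 : 0 ≤ q * ∑ s ∈ ((Zs T).filter (fun s => s.im ∈ G)).filter (fun s => ¬ mz δ s.im ≤ cc), mu s * mz δ s.im ^ (2 * k) :=
      mul_nonneg hq0 (sum_nonneg fun s _ => mul_nonneg (mu_nn s) (mzk_nn _ _ _))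
    rw [h2, mul_add] at m1
    rw [h1, mul_add]
    rw [abs_le] at m1 ⊢
    constructor
    · linarith [m1.1]
    · linarith [m1.2]
  · have h1 := hsub (ZO η T) (ZO_sub _ _)
    linarith
  · have h1 := hsub ((Zs T).filter (fun s => s.re ≤ 1 / 2)) (filter_subset _ _)
    linarith

end Run7.h751.ZO
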