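import Pool.Agent.Run7.h751.ZO.Y3

set_option autoImplicit false

/-! # Orders below four -/

namespace Run7.h751.ZO

open Finset Filter MeasureTheory Topology Complex
open Run7.h751.ZM
open Pool.Agent.N748.MG

open Classical in
theorem fullo (hDP : Pool.Agent.Q97.UM.S_DPM) (hMV : Pool.Agent.Q97.UM.S_MVL) (hSA : Pool.Agent.Q97.UM.S_SAMP)
    (hSI : S_SAMPO) (hL4 : S_L4) (hSN : Run7.h310.SP.S_SNIC) (hCM : S_CMP) (hD1 : S_DIA1)
    (hD2 : S_DIA2) (hc : S_CON) (c1 : 1 < cO) (c2 : cO < 3 / 2)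
    (hS : Run7.h310.SP.S_SUM) (hF : S_F4)
    (k1 k2 ε : ℝ) (hk1 : 0 < k1) (hk12 : k1 ≤ k2) (hk2 : k2 < 2) (hε : 0 < ε) :
    ∃ η : ℝ, 0 < η ∧ η ≤ 1 ∧ Ev fun T δ => ∀ k : ℝ, k1 ≤ k → k ≤ k2 →
        |(2 * δ) ^ (k ^ 2) * ∑ s ∈ Zs T, mu s * mz δ s.im ^ (2 * k) -
          (aC k).re * (T * Real.log T / (2 * Real.pi))| ≤ ε * (T * Real.log T) ∧
        (2 - cO) * (aC k).re * (T * Real.log T / (2 * Real.pi)) - ε * (T * Real.log T) ≤
          (2 * δ) ^ (k ^ 2) * ∑ s ∈ ZO η T, mz δ s.im ^ (2 * k) ∧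
        (3 - cO) / 2 * (aC k).re * (T * Real.log T / (2 * Real.pi)) - ε * (T * Real.log T) ≤
          (2 * δ) ^ (k ^ 2) * ∑ s ∈ (Zs T).filter (fun s => s.re ≤ 1 / 2), mz δ s.im ^ (2 * k) := by
  obtain ⟨C5, hC5, h5⟩ := fourz hS hF
  obtain ⟨g, hg⟩ : ∃ g : ℝ, g = 4 - 2 * k2 := ⟨_, rfl⟩
  have hg0 : 0 < g := by rw [hg]; linarith
  obtain ⟨B, hB⟩ : ∃ B : ℝ, B = (C5 + 1) / g := ⟨_, rfl⟩
  have hB0 : 0 < B := by rw [hB]; positivity
  have hBg : B * g = C5 + 1 := by rw [hB]; field_simp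
  obtain ⟨η, hη, hη1, hev⟩ := main1o hDP hMV hSA hSI hL4 hSN hCM hD1 hD2 hc c1 c2 2 (ε / 2) (4 * B + 1)
    (by norm_num) (by positivity) (by positivity)
  refine ⟨η, hη, hη1, ((hev.and (h5.and (Ev.of_ev (eventually_ge_atTop (16:ℝ))))).and
    (Ev.small (C := 1 + C5) (c := 1) (e := ε / 2) one_pos (by positivity))).mono ?_⟩
  rintro T δ hT1 hδ hδ16 ⟨⟨⟨G, g4, g5, g6⟩, h6, hT16⟩, hs1⟩
  rw [Real.rpow_one] at hs1
  have hT0 : 0 < T := by linarith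
  have hlT : 0 < Real.log T := Real.log_pos (by linarith)
  obtain ⟨X, hX⟩ : ∃ X : ℝ, X = T * Real.log T := ⟨_, rfl⟩
  have hX0 : 0 < X := by rw [hX]; positivity
  intro k hk hk'
  have hk0 : 0 < k := by linarith
  obtain ⟨m1, m2, m3⟩ := g6 k hk0.le (by linarith)
  rw [← hX] at g4 m1 m2 m3 h6 ⊢
  obtain ⟨q, hq⟩ : ∃ q : ℝ, q = (2 * δ) ^ (k ^ 2) := ⟨_, rfl⟩
  rw [← hq] at m1 m2 m3 ⊢
  have hq0 : 0 ≤ q := by rw [hq]; positivity
  have hq1 : q ≤ 1 := by rw [hq]; exact Real.rpow_le_one (by positivity) (by linarith) (by positivity)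
  obtain ⟨Y, hY⟩ : ∃ Y : ℝ, Y = δ ^ (-B) := ⟨_, rfl⟩
  have hY1 : 1 ≤ Y := by
    rw [hY]
    exact Real.one_le_rpow_of_pos_of_le_one_of_nonpos hδ (by linarith) (by linarith)
  have hY0 : 0 < Y := by linarith
  have hpt : ∀ z : ℝ, 0 ≤ z → z ^ (2 * k) ≤ Y ^ (4:ℝ) + Y ^ (-g) * z ^ (4:ℝ) := by
    intro z hz
    rcases le_or_gt z Y with h | h
    · have h1 : z ^ (2 * k) ≤ Y ^ (4:ℝ) := (Real.rpow_le_rpow hz h (by linarith)).trans
        (Real.rpow_le_rpow_of_exponent_le hY1 (by linarith))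
      have h2 : 0 ≤ Y ^ (-g) * z ^ (4:ℝ) := by positivity
      linarith
    · have hz0 : 0 < z := hY0.trans h
      have hz1 : 1 ≤ z := by linarith
      have h1 : z ^ (2 * k) ≤ z ^ (-g) * z ^ (4:ℝ) := by
        rw [← Real.rpow_add hz0]
        refine Real.rpow_le_rpow_of_exponent_le hz1 ?_
        rw [hg]; linarith
      have h2 : z ^ (-g) ≤ Y ^ (-g) := Real.rpow_le_rpow_of_nonpos hY0 h.le (by linarith)
      have h3 : z ^ (-g) * z ^ (4:ℝ) ≤ Y ^ (-g) * z ^ (4:ℝ) := mul_le_mul_of_nonneg_right h2 (by positivity)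
      have h4 : 0 ≤ Y ^ (4:ℝ) := by positivity
      linarith
  have hE1 : q * ∑ s ∈ (Zs T).filter (fun s => s.im ∉ G), mu s * mz δ s.im ^ (2 * k) ≤ ε / 2 * X := by
    have h1 : ∑ s ∈ (Zs T).filter (fun s => s.im ∉ G), mu s * mz δ s.im ^ (2 * k) ≤
        Y ^ (4:ℝ) * ∑ s ∈ (Zs T).filter (fun s => s.im ∉ G), mu s +
        Y ^ (-g) * ∑ s ∈ (Zs T).filter (fun s => s.im ∉ G), mu s * mz δ s.im ^ (4:ℝ) := by
      rw [mul_sum, mul_sum, ← sum_add_distrib]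
      refine sum_le_sum fun s _ => ?_
      calc mu s * mz δ s.im ^ (2 * k) ≤ mu s * (Y ^ (4:ℝ) + Y ^ (-g) * mz δ s.im ^ (4:ℝ)) :=
            mul_le_mul_of_nonneg_left (hpt _ (norm_nonneg _)) (mu_nn s)
        _ = _ := by ring
    have h2 : ∑ s ∈ (Zs T).filter (fun s => s.im ∉ G), mu s * mz δ s.im ^ (4:ℝ) ≤ C5 * X * δ ^ (-C5) :=
      (sum_le_sum_of_subset_of_nonneg (filter_subset _ _) fun s _ _ => mul_nonneg (mu_nn s) (mzk_nn _ _ _)).trans h6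
    have h3 : Y ^ (4:ℝ) * (δ ^ (4 * B + 1) * X) = δ * X := by
      have : Y ^ (4:ℝ) * δ ^ (4 * B + 1) = δ := by
        rw [hY, ← Real.rpow_mul hδ.le, ← Real.rpow_add hδ]
        have e1 : -B * 4 + (4 * B + 1) = 1 := by ring
        rw [e1, Real.rpow_one]
      rw [← mul_assoc, this]
    have h4 : Y ^ (-g) * (C5 * X * δ ^ (-C5)) = C5 * δ * X := by
      have : Y ^ (-g) * δ ^ (-C5) = δ := by
        rw [hY, ← Real.rpow_mul hδ.le, ← Real.rpow_add hδ]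
        have e1 : -B * -g + -C5 = 1 := by rw [neg_mul_neg, hBg]; ring
        rw [e1, Real.rpow_one]
      calc Y ^ (-g) * (C5 * X * δ ^ (-C5)) = C5 * (Y ^ (-g) * δ ^ (-C5)) * X := by ring
        _ = _ := by rw [this]
    have h5' : Y ^ (4:ℝ) * ∑ s ∈ (Zs T).filter (fun s => s.im ∉ G), mu s ≤ Y ^ (4:ℝ) * (δ ^ (4 * B + 1) * X) :=
      mul_le_mul_of_nonneg_left g4 (by positivity)
    have h7 : Y ^ (-g) * ∑ s ∈ (Zs T).filter (fun s => s.im ∉ G), mu s * mz δ s.im ^ (4:ℝ) ≤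
        Y ^ (-g) * (C5 * X * δ ^ (-C5)) := mul_le_mul_of_nonneg_left h2 (by positivity)
    have h8 : ∑ s ∈ (Zs T).filter (fun s => s.im ∉ G), mu s * mz δ s.im ^ (2 * k) ≤ (1 + C5) * δ * X := by
      have : (1 + C5) * δ * X = δ * X + C5 * δ * X := by ring
      linarith
    calc _ ≤ 1 * ((1 + C5) * δ * X) :=
          mul_le_mul hq1 h8 (sum_nonneg fun s _ => mul_nonneg (mu_nn s) (mzk_nn _ _ _)) zero_le_one
      _ = ((1 + C5) * δ) * X := by ring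
      _ ≤ _ := mul_le_mul_of_nonneg_right hs1 hX0.le
  refine ⟨?_, ?_, ?_⟩
  · have h1 : ∑ s ∈ Zs T, mu s * mz δ s.im ^ (2 * k) =
        ∑ s ∈ (Zs T).filter (fun s => s.im ∈ G), mu s * mz δ s.im ^ (2 * k) +
        ∑ s ∈ (Zs T).filter (fun s => s.im ∉ G), mu s * mz δ s.im ^ (2 * k) :=
      (sum_filter_add_sum_filter_not _ _ _).symm
    have h3 : 0 ≤ q * ∑ s ∈ (Zs T).filter (fun s => s.im ∉ G), mu s * mz δ s.im ^ (2 * k) :=
      mul_nonneg hq0 (sum_nonneg fun s _ => mul_nonneg (mu_nn s) (mzk_nn _ _ _))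
    rw [h1, mul_add]
    rw [abs_le] at m1 ⊢
    constructor
    · linarith [m1.1]
    · linarith [m1.2]
  · have h1 : ∑ s ∈ (ZO η T).filter (fun s => s.im ∈ G), mz δ s.im ^ (2 * k) ≤
        ∑ s ∈ ZO η T, mz δ s.im ^ (2 * k) :=
      sum_le_sum_of_subset_of_nonneg (filter_subset _ _) fun s _ _ => mzk_nn _ _ _
    have h2 := mul_le_mul_of_nonneg_left h1 hq0
    have h3 : 0 < ε * X := by positivity
    linarith
  · have h1 : ∑ s ∈ ((Zs T).filter (fun s => s.re ≤ 1 / 2)).filter (fun s => s.im ∈ G), mz δ s.im ^ (2 * k) ≤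
        ∑ s ∈ (Zs T).filter (fun s => s.re ≤ 1 / 2), mz δ s.im ^ (2 * k) :=
      sum_le_sum_of_subset_of_nonneg (filter_subset _ _) fun s _ _ => mzk_nn _ _ _
    have h2 := mul_le_mul_of_nonneg_left h1 hq0
    have h3 : 0 < ε * X := by positivity
    linarith

end Run7.h751.ZO
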