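import Pool.Agent.Run7.h751.ZO.Y4
import Pool.Agent.Run7.h751.ZO.Y5

set_option autoImplicit false

/-! # The shares -/

namespace Run7.h751.ZO

open Finset Filter MeasureTheory Topology
open Run7.h751.ZM
open Pool.Agent.N748.MG

open Classical in
/-- the shares of the isolated simple zeros on the line, and of the distinct zeros not right of it -/
theorem share_to (I : Inputs) {d : ℝ → ℝ} (hd : Ad d) {k V : ℝ} (hk : 0 < k) (hV : k < V) {ε : ℝ} (hε : 0 < ε) :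
    ∃ η : ℝ, 0 < η ∧ η ≤ 1 ∧ ∀ᶠ T in atTop,
      0 < ∑ s ∈ Zt V (d T) T, mu s * mz (d T) s.im ^ (2 * k) ∧
      (2 - cO - ε) * ∑ s ∈ Zt V (d T) T, mu s * mz (d T) s.im ^ (2 * k) ≤
        ∑ s ∈ (ZO η T).filter (fun s => mz (d T) s.im ≤ (2 * d T) ^ (-V)), mz (d T) s.im ^ (2 * k) ∧
      ((3 - cO) / 2 - ε) * ∑ s ∈ Zt V (d T) T, mu s * mz (d T) s.im ^ (2 * k) ≤
        ∑ s ∈ ((Zs T).filter (fun s => s.re ≤ 1 / 2)).filter (fun s => mz (d T) s.im ≤ (2 * d T) ^ (-V)),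
          mz (d T) s.im ^ (2 * k) := by
  obtain ⟨a, ha, hak⟩ := I.c.2 k
  have hakr : (aC k).re = a := by rw [hak, Complex.ofReal_re]
  have hpi := Real.pi_pos
  obtain ⟨η, hη, hη1, hev⟩ := trunco I.dp I.mv I.sa so I.l4 I.sn I.cm I.d1 I.d2 I.c c1o c2o k k V
    (ε * a / (2 * Real.pi * (2 + ε))) hk le_rfl hV (by positivity)
  refine ⟨η, hη, hη1, ?_⟩
  have hc1 := c1o
  have hc2 := c2o
  filter_upwards [Ad_app hev hd, XX_pos, hd.pos] with T hT hX hd0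
  obtain ⟨m1, m2, m3⟩ := hT k le_rfl le_rfl
  rw [hakr] at m1 m2 m3
  have hZ : Zt V (d T) T = (Zs T).filter (fun s => mz (d T) s.im ≤ (2 * d T) ^ (-V)) := rfl
  rw [← hZ] at m1
  obtain ⟨S, hS⟩ : ∃ S : ℝ, S = ∑ s ∈ Zt V (d T) T, mu s * mz (d T) s.im ^ (2 * k) := ⟨_, rfl⟩
  rw [← hS] at m1 ⊢
  obtain ⟨q, hq⟩ : ∃ q : ℝ, q = (2 * d T) ^ (k ^ 2) := ⟨_, rfl⟩
  rw [← hq] at m1 m2 m3
  have hq0 : 0 < q := by rw [hq]; exact Real.rpow_pos_of_pos (by linarith) _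
  have hXX : XX T = T * Real.log T := rfl
  rw [← hXX] at m1 m2 m3
  refine ⟨?_, ?_, ?_⟩
  · have h1 := (abs_le.1 m1).1
    have h2 : ε * a / (2 * Real.pi * (2 + ε)) * XX T < a * (XX T / (2 * Real.pi)) := by
      have e1 : ε * a / (2 * Real.pi * (2 + ε)) * XX T = (ε / (2 + ε)) * (a * (XX T / (2 * Real.pi))) := by
        field_simp
      rw [e1]
      have e2 : ε / (2 + ε) < 1 := by rw [div_lt_one (by linarith)]; linarith
      have e3 : 0 < a * (XX T / (2 * Real.pi)) := by positivity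
      exact mul_lt_of_lt_one_left e3 e2
    have h3 : 0 < q * S := by linarith
    exact (mul_pos_iff_of_pos_left hq0).1 h3
  · have h1 := share_pt (c' := 2 - cO) ha (by linarith) (by linarith) hε hX m1 m2
    rw [mul_left_comm] at h1
    exact le_of_mul_le_mul_left h1 hq0
  · have h1 := share_pt (c' := (3 - cO) / 2) ha (by linarith) (by linarith) hε hX m1 m3
    rw [mul_left_comm] at h1
    exact le_of_mul_le_mul_left h1 hq0

open Classical in
/-- the same without truncation for the orders below four -/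
theorem share_fo (I : Inputs) {d : ℝ → ℝ} (hd : Ad d) {k : ℝ} (hk : 0 < k) (hV : k < 2) {ε : ℝ} (hε : 0 < ε) :
    ∃ η : ℝ, 0 < η ∧ η ≤ 1 ∧ ∀ᶠ T in atTop,
      0 < ∑ s ∈ Zs T, mu s * mz (d T) s.im ^ (2 * k) ∧
      (2 - cO - ε) * ∑ s ∈ Zs T, mu s * mz (d T) s.im ^ (2 * k) ≤
        ∑ s ∈ ZO η T, mz (d T) s.im ^ (2 * k) ∧
      ((3 - cO) / 2 - ε) * ∑ s ∈ Zs T, mu s * mz (d T) s.im ^ (2 * k) ≤
        ∑ s ∈ (Zs T).filter (fun s => s.re ≤ 1 / 2), mz (d T) s.im ^ (2 * k) := by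
  obtain ⟨a, ha, hak⟩ := I.c.2 k
  have hakr : (aC k).re = a := by rw [hak, Complex.ofReal_re]
  have hpi := Real.pi_pos
  obtain ⟨η, hη, hη1, hev⟩ := fullo I.dp I.mv I.sa so I.l4 I.sn I.cm I.d1 I.d2 I.c c1o c2o I.su I.f4 k k
    (ε * a / (2 * Real.pi * (2 + ε))) hk le_rfl hV (by positivity)
  refine ⟨η, hη, hη1, ?_⟩
  have hc1 := c1o
  have hc2 := c2o
  filter_upwards [Ad_app hev hd, XX_pos, hd.pos] with T hT hX hd0
  obtain ⟨m1, m2, m3⟩ := hT k le_rfl le_rfl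
  rw [hakr] at m1 m2 m3
  obtain ⟨S, hS⟩ : ∃ S : ℝ, S = ∑ s ∈ Zs T, mu s * mz (d T) s.im ^ (2 * k) := ⟨_, rfl⟩
  rw [← hS] at m1 ⊢
  obtain ⟨q, hq⟩ : ∃ q : ℝ, q = (2 * d T) ^ (k ^ 2) := ⟨_, rfl⟩
  rw [← hq] at m1 m2 m3
  have hq0 : 0 < q := by rw [hq]; exact Real.rpow_pos_of_pos (by linarith) _
  have hXX : XX T = T * Real.log T := rfl
  rw [← hXX] at m1 m2 m3
  refine ⟨?_, ?_, ?_⟩
  · have h1 := (abs_le.1 m1).1
    have h2 : ε * a / (2 * Real.pi * (2 + ε)) * XX T < a * (XX T / (2 * Real.pi)) := by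
      have e1 : ε * a / (2 * Real.pi * (2 + ε)) * XX T = (ε / (2 + ε)) * (a * (XX T / (2 * Real.pi))) := by
        field_simp
      rw [e1]
      have e2 : ε / (2 + ε) < 1 := by rw [div_lt_one (by linarith)]; linarith
      have e3 : 0 < a * (XX T / (2 * Real.pi)) := by positivity
      exact mul_lt_of_lt_one_left e3 e2
    have h3 : 0 < q * S := by linarith
    exact (mul_pos_iff_of_pos_left hq0).1 h3
  · have h1 := share_pt (c' := 2 - cO) ha (by linarith) (by linarith) hε hX m1 m2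
    rw [mul_left_comm] at h1
    exact le_of_mul_le_mul_left h1 hq0
  · have h1 := share_pt (c' := (3 - cO) / 2) ha (by linarith) (by linarith) hε hX m1 m3
    rw [mul_left_comm] at h1
    exact le_of_mul_le_mul_left h1 hq0

end Run7.h751.ZO
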